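import Pool.Agent.H67FP.Hdg

/-!
# The fourth power decides the conjecture of Mumford and Tate
-/

set_option autoImplicit false
set_option linter.unusedSectionVars false

open Matrix

namespace Pool.Agent.H67FP

noncomputable section

namespace Cohomology

variable {ℓ : ℕ} [Fact ℓ.Prime] {Γ ι : Type} [Group Γ] [Fintype ι] [DecidableEq ι]
  (D : Cohomology ℓ Γ ι)

lemma transfer_to_mt (heq : D.tateSpan (2 * D.d) 4 = D.hodgeSpan (2 * D.d) 4)
    {f : Matrix ι ι ℚ_[ℓ] →ₗ[ℚ_[ℓ]] Matrix ι ι ℚ_[ℓ]} (hW : Adj {wtM ℚ_[ℓ] D.wt} f)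
    (h : Adj (D.gal : Set (Matrix ι ι ℚ_[ℓ])) f) :
    Adj (D.mt ℚ_[ℓ] : Set (Matrix ι ι ℚ_[ℓ])) f := by
  have h1 : D.IsTate (2 * D.d) 4 (ofF (ext ℚ_[ℓ] D.Δ) f) :=
    D.isTate_of_killed (D.ofF_wt hW) fun x hx =>
      (ofF_killed_iff (D.Δ_inv ℚ_[ℓ]) f (D.gal_Δ hx)).mpr (h x hx)
  have h2 : ofF (ext ℚ_[ℓ] D.Δ) f ∈ D.hodgeSpan (2 * D.d) 4 := by
    rw [← heq]
    exact Submodule.subset_span h1
  intro x hx
  exact (ofF_killed_iff (D.Δ_inv ℚ_[ℓ]) f (D.mt_Δ hx)).mp (D.killed_of_hodgeSpan hx h2)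

lemma transfer_to_gal (heq : D.tateSpan (2 * D.d) 4 = D.hodgeSpan (2 * D.d) 4)
    {f : Matrix ι ι ℚ_[ℓ] →ₗ[ℚ_[ℓ]] Matrix ι ι ℚ_[ℓ]} (hW : Adj {wtM ℚ_[ℓ] D.wt} f)
    (h : Adj (D.mt ℚ_[ℓ] : Set (Matrix ι ι ℚ_[ℓ])) f) :
    Adj (D.gal : Set (Matrix ι ι ℚ_[ℓ])) f := by
  have h2 : ofF (ext ℚ_[ℓ] D.Δ) f ∈ D.tateSpan (2 * D.d) 4 := by
    rw [heq]
    refine D.mem_hodge_of_killed (D.ofF_wt hW) fun x hx => ?_
    exact (ofF_killed_iff (D.Δ_inv ℚ_[ℓ]) f (D.mt_Δ (D.ext_mem_mt hx))).mpr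
      (h _ (D.ext_mem_mt hx))
  intro x hx
  exact (ofF_killed_iff (D.Δ_inv ℚ_[ℓ]) f (D.gal_Δ hx)).mp (D.killed_of_tateSpan hx h2)

lemma comm_of_proj {S T : Submodule ℚ_[ℓ] (Matrix ι ι ℚ_[ℓ])}
    {π : Matrix ι ι ℚ_[ℓ] →ₗ[ℚ_[ℓ]] Matrix ι ι ℚ_[ℓ]} (h2 : ∀ x ∈ S, π x = x)
    (hS : Adj (S : Set (Matrix ι ι ℚ_[ℓ])) π) (hT : Adj (T : Set (Matrix ι ι ℚ_[ℓ])) π)
    {y : Matrix ι ι ℚ_[ℓ]} (hy : y ∈ T) {x : Matrix ι ι ℚ_[ℓ]} (hx : x ∈ S) :
    x * (y - π y) = (y - π y) * x := by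
  have e1 := hT y hy x
  rw [h2 x hx] at e1
  have e2 := hS x hx y
  have e3 : x * y - y * x = -(y * x - x * y) := by abel
  rw [e3, map_neg, ← e1] at e2
  rw [Matrix.mul_sub, Matrix.sub_mul]
  have e4 : x * π y - π y * x = x * y - y * x := by rw [e2]; abel
  rw [sub_eq_sub_iff_add_eq_add] at e4 ⊢
  rw [← e4, add_comm]

lemma adj_mulLeft {S : Set (Matrix ι ι ℚ_[ℓ])} {z : Matrix ι ι ℚ_[ℓ]} :
    Adj S (LinearMap.mulLeft ℚ_[ℓ] z) ↔ ∀ x ∈ S, x * z = z * x := by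
  constructor
  · intro h x hx
    have := h x hx 1
    simp only [LinearMap.mulLeft_apply, Matrix.mul_one, Matrix.one_mul, sub_self,
      Matrix.mul_zero] at this
    exact sub_eq_zero.mp this
  · intro h x hx y
    simp only [LinearMap.mulLeft_apply]
    rw [← Matrix.mul_assoc, h x hx, Matrix.mul_sub, Matrix.mul_assoc, Matrix.mul_assoc]

lemma adj_W {z : Matrix ι ι ℚ_[ℓ]} (hz : Blk D.wt z) :
    Adj {wtM ℚ_[ℓ] D.wt} (LinearMap.mulLeft ℚ_[ℓ] z) := by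
  rw [adj_mulLeft]
  rintro _ rfl
  exact blk_iff.mp hz

lemma Δ_inv' : D.Δ * D.Δ⁻¹ = 1 := Matrix.mul_nonsing_inv _ (isUnit_iff_ne_zero.mpr D.det_Δ)

lemma Δ_inv'' : D.Δ⁻¹ * D.Δ = 1 := Matrix.nonsing_inv_mul _ (isUnit_iff_ne_zero.mpr D.det_Δ)

/-- A Hodge class in `H^{2d}(Y × Y)` is an endomorphism. -/
lemma hodgeEnd_of_hodge {a : Ten ℚ ι 2} (ha : D.IsHodge D.d 2 a) :
    D.IsHodgeEnd (toMat a * D.Δ⁻¹) := by
  set A := toMat a with hA
  have hA1 : ofMat A = a := ofMat_toMat a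
  have hHA : D.H * ext ℂ A + ext ℂ A * D.Hᵀ = 0 := by
    have := ha.2
    rw [← hA1, extT_ofMat, der_ofMat] at this
    exact ofMat_inj this
  have hWA : wtM ℚ D.wt * A + A * wtM ℚ D.wt = (2 * D.d : ℚ) • A := by
    ext i s
    rw [Matrix.add_apply, wtM, Matrix.diagonal_mul, Matrix.mul_diagonal, Matrix.smul_apply,
      smul_eq_mul]
    by_cases h : A i s = 0
    · simp [h]
    · have h1 : a ![i, s] ≠ 0 := h
      have h2 := ha.1 _ h1
      rw [sum_wt_two] at h2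
      have h3 : (D.wt i : ℚ) + D.wt s = 2 * D.d := by exact_mod_cast h2
      rw [← h3]
      ring
  constructor
  · have h1 : Blk D.wt (A * D.Δ⁻¹) := by
      rw [blk_iff]
      have h2 : wtM ℚ D.wt * D.Δ + D.Δ * wtM ℚ D.wt = (2 * D.d : ℚ) • D.Δ := by
        have := D.wtM_Δ ℚ
        have h3 : ext ℚ D.Δ = D.Δ := by
          ext i j
          simp [ext]
        rwa [h3] at this
      have h4 : D.Δ⁻¹ * wtM ℚ D.wt + wtM ℚ D.wt * D.Δ⁻¹ = (2 * D.d : ℚ) • D.Δ⁻¹ := by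
        have h5 : D.Δ⁻¹ * (wtM ℚ D.wt * D.Δ + D.Δ * wtM ℚ D.wt) * D.Δ⁻¹ =
            D.Δ⁻¹ * ((2 * D.d : ℚ) • D.Δ) * D.Δ⁻¹ := by rw [h2]
        rw [Matrix.mul_add, Matrix.add_mul, Matrix.mul_smul, Matrix.smul_mul, D.Δ_inv'',
          Matrix.one_mul, ← Matrix.mul_assoc D.Δ⁻¹ D.Δ, D.Δ_inv'', Matrix.one_mul,
          ← Matrix.mul_assoc D.Δ⁻¹, Matrix.mul_assoc _ D.Δ, D.Δ_inv', Matrix.mul_one] at h5
        exact h5
      have h6 : wtM ℚ D.wt * A = (2 * D.d : ℚ) • A - A * wtM ℚ D.wt := by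
        rw [← hWA]
        abel
      have h7 : wtM ℚ D.wt * D.Δ⁻¹ = (2 * D.d : ℚ) • D.Δ⁻¹ - D.Δ⁻¹ * wtM ℚ D.wt := by
        rw [← h4]
        abel
      rw [← Matrix.mul_assoc, h6, Matrix.sub_mul, Matrix.mul_assoc A, h7, Matrix.mul_sub,
        Matrix.smul_mul, Matrix.mul_smul, Matrix.mul_assoc]
      abel
    exact h1
  · have h8 : ext ℂ D.Δ * D.Hᵀ = -(D.H * ext ℂ D.Δ) := by
      rw [eq_neg_iff_add_eq_zero, add_comm]
      exact D.H_Δ
    have h9 : ext ℂ A * D.Hᵀ = -(D.H * ext ℂ A) := by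
      rw [eq_neg_iff_add_eq_zero, add_comm]
      exact hHA
    have i1 : ext ℂ D.Δ * ext ℂ D.Δ⁻¹ = 1 := D.Δ_inv ℂ
    have i2 : ext ℂ D.Δ⁻¹ * ext ℂ D.Δ = 1 := by rw [← ext_mul, D.Δ_inv'', ext_one]
    have h10 : ext ℂ D.Δ⁻¹ * D.H = -(D.Hᵀ * ext ℂ D.Δ⁻¹) := by
      have : ext ℂ D.Δ⁻¹ * (D.H * ext ℂ D.Δ) * ext ℂ D.Δ⁻¹ =
          ext ℂ D.Δ⁻¹ * (-(ext ℂ D.Δ * D.Hᵀ)) * ext ℂ D.Δ⁻¹ := by rw [h8, neg_neg]
      rw [Matrix.mul_assoc, Matrix.mul_assoc, i1, Matrix.mul_one, Matrix.mul_neg,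
        ← Matrix.mul_assoc, i2, Matrix.one_mul, Matrix.neg_mul] at this
      exact this
    rw [ext_mul, Matrix.mul_assoc, h10, Matrix.mul_neg, ← Matrix.mul_assoc, h9, Matrix.neg_mul,
      neg_neg, Matrix.mul_assoc]

/-- A matrix preserving the degrees and commuting with the Lie algebra of the Hodge side is a
combination of endomorphisms of the Hodge structure. -/
lemma mem_span_hodgeEnd {z : Matrix ι ι ℚ_[ℓ]} (hz : Blk D.wt z)
    (h : ∀ x ∈ D.mt ℚ_[ℓ], x * z = z * x) :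
    z ∈ Submodule.span ℚ_[ℓ] {x | ∃ e, D.IsHodgeEnd e ∧ x = ext ℚ_[ℓ] e} := by
  have h1 : ofMat (z * ext ℚ_[ℓ] D.Δ) ∈ D.hodgeSpan D.d 2 := by
    refine D.mem_hodge_of_killed (fun i hi => ?_) fun x hx => ?_
    · rw [sum_wt_two]
      obtain ⟨t, _, ht⟩ := Finset.exists_ne_zero_of_sum_ne_zero hi
      have h2 : z (i 0) t ≠ 0 := fun h => ht (by
        change z (i 0) t * _ = 0
        rw [h, zero_mul])
      have h3 : ext ℚ_[ℓ] D.Δ t (i 1) ≠ 0 := fun h => ht (by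
        change _ * ext ℚ_[ℓ] D.Δ t (i 1) = 0
        rw [h, mul_zero])
      rw [hz _ _ h2]
      exact D.wt_of_Δ ℚ_[ℓ] h3
    · have hx' := D.ext_mem_mt (K := ℚ_[ℓ]) hx
      have h4 : ext ℚ_[ℓ] D.Δ * (ext ℚ_[ℓ] x)ᵀ = -(ext ℚ_[ℓ] x * ext ℚ_[ℓ] D.Δ) := by
        rw [eq_neg_iff_add_eq_zero, add_comm]
        exact D.mt_Δ hx'
      rw [der_ofMat, Matrix.mul_assoc z, h4, Matrix.mul_neg, ← Matrix.mul_assoc,
        ← Matrix.mul_assoc, h _ hx', add_neg_cancel]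
      rfl
  have h5 : ∀ b ∈ D.hodgeSpan D.d 2, toMat b * ext ℚ_[ℓ] D.Δ⁻¹ ∈
      Submodule.span ℚ_[ℓ] {x | ∃ e, D.IsHodgeEnd e ∧ x = ext ℚ_[ℓ] e} := by
    intro b hb
    refine Submodule.span_induction (p := fun b _ => toMat b * ext ℚ_[ℓ] D.Δ⁻¹ ∈
      Submodule.span ℚ_[ℓ] {x | ∃ e, D.IsHodgeEnd e ∧ x = ext ℚ_[ℓ] e}) ?_ ?_ ?_ ?_ hb
    · rintro _ ⟨a, ha, rfl⟩
      refine Submodule.subset_span ⟨_, D.hodgeEnd_of_hodge ha, ?_⟩
      rw [ext_mul]
      rfl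
    · have : toMat (0 : Ten ℚ_[ℓ] ι 2) = 0 := rfl
      rw [this, Matrix.zero_mul]
      exact Submodule.zero_mem _
    · intro b c _ _ hb hc
      have : toMat (b + c) = toMat b + toMat c := rfl
      rw [this, Matrix.add_mul]
      exact Submodule.add_mem _ hb hc
    · intro q b _ hb
      have : toMat (q • b) = q • toMat b := rfl
      rw [this, Matrix.smul_mul]
      exact Submodule.smul_mem _ _ hb
  have h6 := h5 _ h1
  have h7 : toMat (ofMat (z * ext ℚ_[ℓ] D.Δ)) = z * ext ℚ_[ℓ] D.Δ := by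
    ext i j
    simp [toMat, ofMat]
  rw [h7, Matrix.mul_assoc, D.Δ_inv, Matrix.mul_one] at h6
  exact h6

/-- The Lie algebra of the Hodge side commutes with the endomorphisms of the Hodge structure. -/
lemma hodgeEnd_comm {e : Matrix ι ι ℚ} (he : D.IsHodgeEnd e) {x : Matrix ι ι ℚ_[ℓ]}
    (hx : x ∈ D.mt ℚ_[ℓ]) : x * ext ℚ_[ℓ] e = ext ℚ_[ℓ] e * x := by
  have h1 : D.IsHodge D.d 2 (ofMat (e * D.Δ)) := by
    refine ⟨fun i hi => ?_, ?_⟩
    · rw [sum_wt_two]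
      obtain ⟨t, _, ht⟩ := Finset.exists_ne_zero_of_sum_ne_zero hi
      have h2 : e (i 0) t ≠ 0 := fun h => ht (by
        change e (i 0) t * _ = 0
        rw [h, zero_mul])
      have h3 : D.Δ t (i 1) ≠ 0 := fun h => ht (by
        change _ * D.Δ t (i 1) = 0
        rw [h, mul_zero])
      rw [he.1 _ _ h2]
      exact D.wt_Δ _ _ h3
    · have h4 : ext ℂ D.Δ * D.Hᵀ = -(D.H * ext ℂ D.Δ) := by
        rw [eq_neg_iff_add_eq_zero, add_comm]
        exact D.H_Δ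
      rw [extT_ofMat, der_ofMat, ext_mul, Matrix.mul_assoc (ext ℂ e), h4, Matrix.mul_neg,
        ← Matrix.mul_assoc, ← Matrix.mul_assoc, he.2, add_neg_cancel]
      rfl
  have h5 := hx _ _ _ h1
  have h6 : ext ℚ_[ℓ] D.Δ * xᵀ = -(x * ext ℚ_[ℓ] D.Δ) := by
    rw [eq_neg_iff_add_eq_zero, add_comm]
    exact D.mt_Δ hx
  rw [extT_ofMat, der_ofMat, ext_mul, Matrix.mul_assoc (ext ℚ_[ℓ] e), h6, Matrix.mul_neg,
    ← Matrix.mul_assoc, ← Matrix.mul_assoc] at h5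
  have h7 := ofMat_inj (N := 0) h5
  have h8 := congrArg (· * ext ℚ_[ℓ] D.Δ⁻¹) h7
  simp only [Matrix.add_mul, Matrix.neg_mul, Matrix.mul_assoc, D.Δ_inv, Matrix.mul_one,
    Matrix.zero_mul] at h8
  exact add_neg_eq_zero.mp h8

/-- The main theorem. -/
theorem main_iff (hG : D.GaloisSemisimple) (hH : D.HodgeSemisimple) :
    (∀ j k, D.tateSpan j k = D.hodgeSpan j k) ↔
      D.tateSpan (2 * D.d) 4 = D.hodgeSpan (2 * D.d) 4 ∧ D.CentresAgree := by
  constructor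
  · intro h
    refine ⟨h _ _, fun z _ _ h1 j k a ha => h1 j k a ?_⟩
    rw [h j k] at ha ⊢
    rw [inf_idem]
    rwa [sup_idem] at ha
  rintro ⟨heq, hcen⟩
  obtain ⟨π, hπ1, hπ2, hπW, hπG⟩ := D.exists_proj hG
  obtain ⟨τ, hτ1, hτ2, hτW, hτM⟩ := D.exists_projM hH
  have hπM := D.transfer_to_mt heq hπW hπG
  have hτG := D.transfer_to_gal heq hτW hτM
  have hEG : ∀ e, D.IsHodgeEnd e → ∀ x ∈ D.gal, x * ext ℚ_[ℓ] e = ext ℚ_[ℓ] e * x := by
    intro e he
    have h1 := D.adj_W (blk_ext (K := ℚ_[ℓ]) he.1)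
    have h2 : Adj (D.mt ℚ_[ℓ] : Set (Matrix ι ι ℚ_[ℓ])) (LinearMap.mulLeft ℚ_[ℓ] (ext ℚ_[ℓ] e)) :=
      adj_mulLeft.mpr fun x hx => D.hodgeEnd_comm he hx
    exact adj_mulLeft.mp (D.transfer_to_gal heq h1 h2)
  -- the differences are central
  have hcentral : ∀ z y y', y ∈ D.mt ℚ_[ℓ] → y' ∈ D.gal → (z = y - y' ∨ z = y' - y) →
      (∀ x ∈ D.mt ℚ_[ℓ], x * z = z * x) → z ∈ D.gal ∧ z ∈ D.mt ℚ_[ℓ] := by
    intro z y y' hy hy' hz hcomm
    have hzb : Blk D.wt z := by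
      have h1 := blk_iff.mp (D.mt_blk hy)
      have h2 := blk_iff.mp (D.gal_blk hy')
      rw [blk_iff]
      rcases hz with rfl | rfl
      · rw [Matrix.mul_sub, Matrix.sub_mul, h1, h2]
      · rw [Matrix.mul_sub, Matrix.sub_mul, h1, h2]
    have hspan := D.mem_span_hodgeEnd hzb hcomm
    have hE : ∀ e, D.IsHodgeEnd e → z * ext ℚ_[ℓ] e = ext ℚ_[ℓ] e * z := by
      intro e he
      have h1 := D.hodgeEnd_comm he hy
      have h2 := hEG e he y' hy'
      rcases hz with rfl | rfl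
      · rw [Matrix.mul_sub, Matrix.sub_mul, h1, h2]
      · rw [Matrix.mul_sub, Matrix.sub_mul, h1, h2]
    have hk : ∀ j k, ∀ a ∈ D.tateSpan j k ⊓ D.hodgeSpan j k, der z a = 0 := by
      intro j k a ha
      have h1 := D.killed_of_tateSpan hy' ha.1
      have h2 := D.killed_of_hodgeSpan hy ha.2
      rcases hz with rfl | rfl
      · rw [← derL_apply, map_sub, LinearMap.sub_apply, derL_apply, derL_apply, h1, h2, sub_self]
      · rw [← derL_apply, map_sub, LinearMap.sub_apply, derL_apply, derL_apply, h1, h2, sub_self]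
    have hall := hcen z hspan hE hk
    refine ⟨fun j k a ha => hall j k a (Submodule.mem_sup_left (Submodule.subset_span ha)),
      fun j k a ha => hall j k _ (Submodule.mem_sup_right (Submodule.subset_span ⟨a, ha, rfl⟩))⟩
  have hMG : ∀ y ∈ D.mt ℚ_[ℓ], y ∈ D.gal := by
    intro y hy
    have h1 : ∀ x ∈ D.gal, x * (y - π y) = (y - π y) * x := fun x hx =>
      comm_of_proj hπ2 hπG hπM hy hx
    have hb : Blk D.wt (y - π y) := by
      rw [blk_iff, Matrix.mul_sub, Matrix.sub_mul, blk_iff.mp (D.mt_blk hy),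
        blk_iff.mp (D.gal_blk (hπ1 y))]
    have h2 : ∀ x ∈ D.mt ℚ_[ℓ], x * (y - π y) = (y - π y) * x :=
      adj_mulLeft.mp (D.transfer_to_mt heq (D.adj_W hb) (adj_mulLeft.mpr h1))
    have h3 := (hcentral (y - π y) y (π y) hy (hπ1 y) (Or.inl rfl) h2).1
    have h4 := D.gal.add_mem h3 (hπ1 y)
    rwa [sub_add_cancel] at h4
  have hGM : ∀ x ∈ D.gal, x ∈ D.mt ℚ_[ℓ] := by
    intro x hx
    have h1 : ∀ y ∈ D.mt ℚ_[ℓ], y * (x - τ x) = (x - τ x) * y := fun y hy =>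
      comm_of_proj hτ2 hτM hτG hx hy
    have h3 := (hcentral (x - τ x) (τ x) x (hτ1 x) hx (Or.inr rfl) h1).2
    have h4 := (D.mt ℚ_[ℓ]).add_mem h3 (hτ1 x)
    rwa [sub_add_cancel] at h4
  intro j k
  apply le_antisymm
  · intro a ha
    refine D.mem_hodge_of_killed (D.tateSpan_wt ha) fun x hx => ?_
    exact D.killed_of_tateSpan (hMG _ (D.ext_mem_mt hx)) ha
  · intro a ha
    refine Submodule.subset_span (D.isTate_of_killed (D.hodgeSpan_wt ha) fun x hx => ?_)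
    exact D.killed_of_hodgeSpan (hGM x hx) ha

/-- Without factors of type IV the centres agree. -/
theorem centresAgree_of_noTypeFour (h : D.NoTypeFour) : D.CentresAgree := by
  obtain ⟨b, hdet, hbw, hbH, hbG, hbc⟩ := h
  intro z hz hzE hzk
  have hzb : Blk D.wt z := by
    rw [blk_iff]
    refine Submodule.span_induction (p := fun z _ => wtM ℚ_[ℓ] D.wt * z = z * wtM ℚ_[ℓ] D.wt)
      ?_ ?_ ?_ ?_ hz
    · rintro _ ⟨e, he, rfl⟩
      exact blk_iff.mp (blk_ext he.1)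
    · rw [Matrix.mul_zero, Matrix.zero_mul]
    · intro u v _ _ hu hv
      rw [Matrix.mul_add, Matrix.add_mul, hu, hv]
    · intro q u _ hu
      rw [Matrix.mul_smul, Matrix.smul_mul, hu]
  -- `z` is fixed by the involution
  have h1 : z * ext ℚ_[ℓ] b = ext ℚ_[ℓ] b * zᵀ := by
    obtain ⟨n, κ, g, hsum⟩ := Submodule.mem_span_set'.mp hz
    choose e he hge using fun t => (g t).2
    obtain ⟨r, β, c, hβ, hκ⟩ := decomp κ
    have hz2 : z = ∑ m, β m • ext ℚ_[ℓ] (∑ t, c m t • e t) := by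
      rw [← hsum]
      simp only [ext_sum, ext_smul, Finset.smul_sum]
      rw [Finset.sum_comm]
      refine Finset.sum_congr rfl fun t _ => ?_
      rw [hge t, hκ t, Finset.sum_smul]
      refine Finset.sum_congr rfl fun m _ => ?_
      rw [smul_smul]
    have hE : ∀ m, D.IsHodgeEnd (∑ t, c m t • e t) := by
      intro m
      constructor
      · have : Blk D.wt (∑ t, c m t • e t) := by
          rw [blk_iff, Matrix.mul_sum, Matrix.sum_mul]
          refine Finset.sum_congr rfl fun t _ => ?_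
          rw [Matrix.mul_smul, Matrix.smul_mul, blk_iff.mp (he t).1]
        exact this
      · simp only [ext_sum, ext_smul, Matrix.sum_mul, Matrix.mul_sum, Matrix.smul_mul,
          Matrix.mul_smul]
        exact Finset.sum_congr rfl fun t _ => by rw [(he t).2]
    have hcomm : ∀ m, ∀ e', D.IsHodgeEnd e' →
        (∑ t, c m t • e t) * e' = e' * (∑ t, c m t • e t) := by
      intro m e' he'
      have h2 := hzE e' he'
      rw [hz2, Matrix.sum_mul, Matrix.mul_sum, ← sub_eq_zero, ← Finset.sum_sub_distrib] at h2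
      have h3 : ∀ m, (∑ t, c m t • e t) * e' - e' * (∑ t, c m t • e t) = 0 := by
        refine coeffM_zero hβ (fun m => (∑ t, c m t • e t) * e' - e' * (∑ t, c m t • e t)) ?_
        rw [← h2]
        refine Finset.sum_congr rfl fun m _ => ?_
        rw [ext_sub, ext_mul, ext_mul, smul_sub, Matrix.smul_mul, Matrix.mul_smul]
      exact sub_eq_zero.mp (h3 m)
    rw [hz2, Matrix.sum_mul, Matrix.transpose_sum, Matrix.mul_sum]
    refine Finset.sum_congr rfl fun m _ => ?_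
    rw [Matrix.smul_mul, ← ext_mul, hbc _ (hE m) (hcomm m), ext_mul, Matrix.transpose_smul,
      Matrix.mul_smul, ext_transpose]
  -- `z` kills the classes of the polarization
  have h2 : z * ext ℚ_[ℓ] b + ext ℚ_[ℓ] b * zᵀ = 0 := by
    have key : ∀ (w : ℕ) (i s : ι), D.wt i = w →
        (z * ext ℚ_[ℓ] b + ext ℚ_[ℓ] b * zᵀ) i s = 0 := by
      intro w i s hiw
      set P : Matrix ι ι ℚ := Matrix.diagonal fun i => if D.wt i = w then 1 else 0 with hP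
      have hPK : ∀ (L : Type) [Field L] [CharZero L],
          ext L P = Matrix.diagonal fun i => if D.wt i = w then 1 else 0 := by
        intro L _ _
        ext i s
        simp only [hP, ext, Matrix.map_apply, Matrix.diagonal_apply]
        split_ifs <;> simp
      have hPc : ∀ (L : Type) [Field L] [CharZero L] (M : Matrix ι ι L), Blk D.wt M →
          ext L P * M = M * ext L P := by
        intro L _ _ M hM
        rw [hPK]
        ext i s
        rw [Matrix.diagonal_mul, Matrix.mul_diagonal]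
        by_cases h0 : M i s = 0
        · rw [h0, mul_zero, zero_mul]
        · rw [hM i s h0, mul_comm]
      have hT : D.IsTate w 2 (ofMat (ext ℚ_[ℓ] (P * b))) := by
        refine ⟨fun i hi => ?_, ⊤, inferInstance, fun γ _ => ?_⟩
        · rw [sum_wt_two]
          have h3 : (P * b) (i 0) (i 1) ≠ 0 := fun h => hi (by simp [ofMat, ext, h])
          rw [hP, Matrix.diagonal_mul] at h3
          have h4 : D.wt (i 0) = w := by
            by_contra h
            rw [if_neg h, zero_mul] at h3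
            exact h3 rfl
          have h5 : b (i 0) (i 1) ≠ 0 := right_ne_zero_of_mul h3
          rw [← hbw _ _ h5, h4, two_mul]
        · rw [tp_ofMat, ext_mul, ← Matrix.mul_assoc, ← hPc _ _ (D.rho_blk γ)]
          funext i
          rw [Pi.smul_apply, ofMat, ofMat, smul_eq_mul, Matrix.mul_assoc (ext ℚ_[ℓ] P),
            Matrix.mul_assoc (ext ℚ_[ℓ] P), hPK, Matrix.diagonal_mul, Matrix.diagonal_mul]
          split_ifs with h
          · have := hbG γ (i 0) (i 1)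
            rw [h] at this
            rw [one_mul, one_mul, this]
            rfl
          · rw [zero_mul, zero_mul, mul_zero]
      have hHd : D.IsHodge w 2 (ofMat (P * b)) := by
        refine ⟨fun i hi => ?_, ?_⟩
        · exact hT.1 i (by simpa [ofMat, ext] using hi)
        · rw [extT_ofMat, der_ofMat, ext_mul, ← Matrix.mul_assoc, ← hPc _ _ D.H_blk,
            Matrix.mul_assoc, Matrix.mul_assoc, ← Matrix.mul_add, hbH, Matrix.mul_zero]
          rfl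
      have hk := hzk w 2 (ofMat (ext ℚ_[ℓ] (P * b)))
        ⟨Submodule.subset_span hT, Submodule.subset_span ⟨_, hHd, rfl⟩⟩
      rw [der_ofMat, ext_mul, ← Matrix.mul_assoc, ← hPc _ _ hzb, Matrix.mul_assoc,
        Matrix.mul_assoc, ← Matrix.mul_add] at hk
      have hk2 := ofMat_inj (N := 0) hk
      have hk3 := congrFun (congrFun hk2 i) s
      rw [hPK, Matrix.diagonal_mul, if_pos hiw, one_mul] at hk3
      exact hk3
    ext i s
    exact key (D.wt i) i s rfl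
  have h3 : z = 0 := by
    rw [← h1, ← two_smul ℚ_[ℓ], smul_eq_zero] at h2
    have h4 : z * ext ℚ_[ℓ] b = 0 := by
      rcases h2 with h | h
      · exact absurd h two_ne_zero
      · exact h
    have h5 : ext ℚ_[ℓ] b * ext ℚ_[ℓ] b⁻¹ = 1 := by
      rw [← ext_mul, Matrix.mul_nonsing_inv _ (isUnit_iff_ne_zero.mpr hdet), ext_one]
    calc z = z * (ext ℚ_[ℓ] b * ext ℚ_[ℓ] b⁻¹) := by rw [h5, Matrix.mul_one]
      _ = z * ext ℚ_[ℓ] b * ext ℚ_[ℓ] b⁻¹ := by rw [Matrix.mul_assoc]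
      _ = 0 := by rw [h4, Matrix.zero_mul]
  intro j k a _
  rw [h3, ← derL_apply, map_zero]
  rfl

end Cohomology

end

end Pool.Agent.H67FP
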