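import Pool.Agent.H67FP.BC

/-!
# Tensors of degree two and four as matrices and as linear maps between matrices
-/

set_option autoImplicit false
set_option linter.unusedSectionVars false

open Matrix

namespace Pool.Agent.H67FP

section general

variable {K ι : Type} [CommRing K] [Fintype ι] [DecidableEq ι] {k : ℕ}

lemma tp_mul (g h : Matrix ι ι K) : tp k (g * h) = tp k g * tp k h := by
  ext i s
  simp only [tp, Matrix.of_apply, Matrix.mul_apply]
  rw [Finset.prod_univ_sum]
  simp [Fintype.piFinset_univ, Finset.prod_mul_distrib]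

lemma tp_one : tp k (1 : Matrix ι ι K) = 1 := by
  ext i s
  simp only [tp, Matrix.of_apply]
  by_cases h : i = s
  · subst h
    simp
  · obtain ⟨r, hr⟩ := Function.ne_iff.mp h
    rw [Matrix.one_apply_ne h]
    exact Finset.prod_eq_zero (Finset.mem_univ r) (Matrix.one_apply_ne hr)

lemma tp_pow (g : Matrix ι ι K) (n : ℕ) : tp k (g ^ n) = tp k g ^ n := by
  induction n with
  | zero => simp [tp_one]
  | succ n ih => rw [pow_succ, tp_mul, ih, pow_succ]

/-- `der` as a bilinear map. -/
def derL : Matrix ι ι K →ₗ[K] Ten K ι k →ₗ[K] Ten K ι k :=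
  LinearMap.mk₂ K der
    (fun x y a => by
      funext i
      simp only [der, Pi.add_apply, Matrix.add_apply, add_mul, Finset.sum_add_distrib])
    (fun c x a => by
      funext i
      simp only [der, Pi.smul_apply, Matrix.smul_apply, smul_eq_mul, mul_assoc,
        Finset.mul_sum])
    (fun x a b => by
      funext i
      simp only [der, Pi.add_apply, mul_add, Finset.sum_add_distrib])
    (fun c x a => by
      funext i
      simp only [der, Pi.smul_apply, smul_eq_mul, Finset.mul_sum]
      refine Finset.sum_congr rfl fun r _ => Finset.sum_congr rfl fun s _ => ?_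
      ring)

@[simp] lemma derL_apply (x : Matrix ι ι K) (a : Ten K ι k) : derL x a = der x a := rfl

/-- A matrix as a tensor of degree two. -/
def ofMat (M : Matrix ι ι K) : Ten K ι 2 := fun i => M (i 0) (i 1)

/-- A tensor of degree two as a matrix. -/
def toMat (a : Ten K ι 2) : Matrix ι ι K := Matrix.of fun i j => a ![i, j]

lemma ofMat_toMat (a : Ten K ι 2) : ofMat (toMat a) = a := by
  funext i
  simp only [ofMat, toMat, Matrix.of_apply]
  congr 1
  funext r
  fin_cases r <;> rfl

lemma ofMat_inj {M N : Matrix ι ι K} (h : ofMat M = ofMat N) : M = N := by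
  ext i j
  have := congrFun h ![i, j]
  simpa [ofMat] using this

lemma ofMat_zero : ofMat (0 : Matrix ι ι K) = 0 := rfl

lemma der_ofMat (x M : Matrix ι ι K) : der x (ofMat M) = ofMat (x * M + M * xᵀ) := by
  funext i
  simp only [der, ofMat, Fin.sum_univ_two, Matrix.add_apply, Matrix.mul_apply,
    Matrix.transpose_apply]
  congr 1
  refine Finset.sum_congr rfl fun s _ => ?_
  simp [mul_comm]

lemma sum_two (F : ι → ι → K) : ∑ s : Fin 2 → ι, F (s 0) (s 1) = ∑ a, ∑ b, F a b := by
  rw [← (finTwoArrowEquiv ι).symm.sum_comp, Fintype.sum_prod_type]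
  simp

lemma tp_ofMat (g M : Matrix ι ι K) : (tp 2 g).mulVec (ofMat M) = ofMat (g * M * gᵀ) := by
  funext i
  simp only [Matrix.mulVec, dotProduct, tp, Matrix.of_apply, ofMat, Fin.prod_univ_two]
  rw [sum_two (fun a b => g (i 0) a * g (i 1) b * M a b)]
  simp only [Matrix.mul_apply, Matrix.transpose_apply, Finset.sum_mul]
  rw [Finset.sum_comm]
  refine Finset.sum_congr rfl fun a _ => Finset.sum_congr rfl fun b _ => ?_
  ring

lemma sum_four (F : ι → ι → ι → ι → K) :
    ∑ s : Fin 4 → ι, F (s 0) (s 1) (s 2) (s 3) = ∑ a, ∑ b, ∑ c, ∑ d, F a b c d := by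
  rw [← (Fin.consEquiv (n := 3) (fun _ => ι)).sum_comp, Fintype.sum_prod_type]
  refine Finset.sum_congr rfl fun a _ => ?_
  rw [← (Fin.consEquiv (n := 2) (fun _ => ι)).sum_comp, Fintype.sum_prod_type]
  refine Finset.sum_congr rfl fun b _ => ?_
  rw [← sum_two (fun c d => F a b c d)]
  rfl

/-- The tensor of degree four of a linear map between matrices. -/
def ofF (Δ : Matrix ι ι K) (f : Matrix ι ι K →ₗ[K] Matrix ι ι K) : Ten K ι 4 :=
  fun i => (f (Δ * Matrix.single (i 2) (i 3) 1) * Δ) (i 0) (i 1)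

lemma single_left (x : Matrix ι ι K) (a b : ι) :
    ∑ s, x a s • Matrix.single s b (1 : K) = xᵀ * Matrix.single a b 1 := by
  ext i j
  rw [Matrix.sum_apply]
  simp only [Matrix.smul_apply, Matrix.single_apply, smul_eq_mul, Matrix.mul_apply,
    Matrix.transpose_apply]
  by_cases h : b = j
  · simp [h]
  · simp [h]

lemma single_right (x : Matrix ι ι K) (a b : ι) :
    ∑ s, x b s • Matrix.single a s (1 : K) = Matrix.single a b 1 * x := by
  ext i j
  rw [Matrix.sum_apply]
  simp only [Matrix.smul_apply, Matrix.single_apply, smul_eq_mul, Matrix.mul_apply]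
  by_cases h : a = i
  · simp [h]
  · simp [h]

lemma der_ofF {Δ : Matrix ι ι K} (f : Matrix ι ι K →ₗ[K] Matrix ι ι K) {x : Matrix ι ι K}
    (hx : x * Δ + Δ * xᵀ = 0) (i : Fin 4 → ι) :
    der x (ofF Δ f) i =
      ((x * f (Δ * Matrix.single (i 2) (i 3) 1) - f (Δ * Matrix.single (i 2) (i 3) 1) * x -
        f (x * (Δ * Matrix.single (i 2) (i 3) 1) - Δ * Matrix.single (i 2) (i 3) 1 * x)) * Δ)
          (i 0) (i 1) := by
  have h1 : Δ * xᵀ = -(x * Δ) := by
    rw [eq_neg_iff_add_eq_zero, add_comm]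
    exact hx
  set C := Δ * Matrix.single (i 2) (i 3) (1 : K) with hC
  have e0 : ∑ s, x (i 0) s * ofF Δ f (Function.update i 0 s) = (x * f C * Δ) (i 0) (i 1) := by
    rw [Matrix.mul_assoc, Matrix.mul_apply]
    refine Finset.sum_congr rfl fun s _ => ?_
    simp [ofF, hC]
  have e1 : ∑ s, x (i 1) s * ofF Δ f (Function.update i 1 s) = -((f C * x * Δ) (i 0) (i 1)) := by
    rw [Matrix.mul_assoc, ← Matrix.neg_apply, ← Matrix.mul_neg, ← h1, ← Matrix.mul_assoc,
      Matrix.mul_apply]
    refine Finset.sum_congr rfl fun s _ => ?_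
    simp [ofF, hC, mul_comm]
  have e2 : ∑ s, x (i 2) s * ofF Δ f (Function.update i 2 s) =
      -((f (x * C) * Δ) (i 0) (i 1)) := by
    have h2 : ∑ s, x (i 2) s • (Δ * Matrix.single s (i 3) (1 : K)) = -(x * C) := by
      rw [hC, ← Matrix.mul_assoc, ← Matrix.neg_mul, ← h1, Matrix.mul_assoc, ← single_left,
        Matrix.mul_sum]
      exact Finset.sum_congr rfl fun s _ => (Matrix.mul_smul _ _ _).symm
    rw [← Matrix.neg_apply, ← Matrix.neg_mul, ← map_neg, ← h2, map_sum, Matrix.sum_mul,
      Matrix.sum_apply]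
    refine Finset.sum_congr rfl fun s _ => ?_
    simp [ofF]
  have e3 : ∑ s, x (i 3) s * ofF Δ f (Function.update i 3 s) = (f (C * x) * Δ) (i 0) (i 1) := by
    have h2 : ∑ s, x (i 3) s • (Δ * Matrix.single (i 2) s (1 : K)) = C * x := by
      rw [hC, Matrix.mul_assoc, ← single_right, Matrix.mul_sum]
      exact Finset.sum_congr rfl fun s _ => (Matrix.mul_smul _ _ _).symm
    rw [← h2, map_sum, Matrix.sum_mul, Matrix.sum_apply]
    refine Finset.sum_congr rfl fun s _ => ?_
    simp [ofF]
  have e : der x (ofF Δ f) i = ∑ r, ∑ s, x (i r) s * ofF Δ f (Function.update i r s) := rfl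
  rw [e, Fin.sum_univ_four, e0, e1, e2, e3]
  simp only [Matrix.sub_mul, Matrix.sub_apply, map_sub]
  ring

lemma ofF_killed_iff {Δ Δi : Matrix ι ι K} (h1 : Δ * Δi = 1) (f : Matrix ι ι K →ₗ[K] Matrix ι ι K)
    {x : Matrix ι ι K} (hx : x * Δ + Δ * xᵀ = 0) :
    der x (ofF Δ f) = 0 ↔ ∀ y, x * f y - f y * x = f (x * y - y * x) := by
  constructor
  · intro h y
    let L1 : Matrix ι ι K →ₗ[K] Matrix ι ι K :=
      (LinearMap.mulLeft K x) ∘ₗ f - (LinearMap.mulRight K x) ∘ₗ f
    let L2 : Matrix ι ι K →ₗ[K] Matrix ι ι K :=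
      f ∘ₗ ((LinearMap.mulLeft K x) - (LinearMap.mulRight K x))
    have hs : ∀ a b, L1 (Δ * Matrix.single a b 1) = L2 (Δ * Matrix.single a b 1) := by
      intro a b
      have h2 : (L1 (Δ * Matrix.single a b 1) - L2 (Δ * Matrix.single a b 1)) * Δ = 0 := by
        ext i j
        have h3 := congrFun h ![i, j, a, b]
        rw [der_ofF f hx] at h3
        simpa [L1, L2] using h3
      have h4 : (L1 (Δ * Matrix.single a b 1) - L2 (Δ * Matrix.single a b 1)) * Δ * Δi = 0 := by
        rw [h2, Matrix.zero_mul]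
      rw [Matrix.mul_assoc, h1, Matrix.mul_one, sub_eq_zero] at h4
      exact h4
    have hy : y = ∑ a, ∑ b, (Δi * y) a b • (Δ * Matrix.single a b (1 : K)) := by
      have h5 := Matrix.matrix_eq_sum_single (Δi * y)
      calc y = Δ * (Δi * y) := by rw [← Matrix.mul_assoc, h1, Matrix.one_mul]
        _ = Δ * ∑ a, ∑ b, Matrix.single a b ((Δi * y) a b) := by rw [← h5]
        _ = _ := by
          simp only [Matrix.mul_sum]
          refine Finset.sum_congr rfl fun a _ => Finset.sum_congr rfl fun b _ => ?_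
          rw [← Matrix.mul_smul, Matrix.smul_single, smul_eq_mul, mul_one]
    have h6 : L1 y = L2 y := by
      rw [hy]
      simp only [map_sum, map_smul, hs]
    simpa [L1, L2] using h6
  · intro h
    funext i
    rw [der_ofF f hx, h, sub_self, Matrix.zero_mul]
    rfl

lemma tp_ofF {Δ : Matrix ι ι K} (f : Matrix ι ι K →ₗ[K] Matrix ι ι K) {g g' : Matrix ι ι K} {c : K}
    (hg : g * Δ * gᵀ = c • Δ) (h1 : g * g' = 1) (h2 : g' * g = 1)
    (hf : ∀ y, f (g' * y * g) = g' * f y * g) :
    (tp 4 g).mulVec (ofF Δ f) = c ^ 2 • ofF Δ f := by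
  have h3 : Δ * gᵀ = c • (g' * Δ) := by
    calc Δ * gᵀ = g' * g * Δ * gᵀ := by rw [h2, Matrix.one_mul]
      _ = g' * (g * Δ * gᵀ) := by simp only [Matrix.mul_assoc]
      _ = _ := by rw [hg, Matrix.mul_smul]
  funext i
  set C := Δ * Matrix.single (i 2) (i 3) (1 : K) with hC
  have h4 : ∑ c, ∑ d, (g (i 2) c * g (i 3) d) • (Δ * Matrix.single c d (1 : K)) =
      c • (g' * C * g) := by
    have h5 : ∀ c, ∑ d, (g (i 2) c * g (i 3) d) • (Δ * Matrix.single c d (1 : K)) =
        g (i 2) c • (Δ * (Matrix.single c (i 3) 1 * g)) := by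
      intro c
      rw [← single_right, Matrix.mul_sum, Finset.smul_sum]
      refine Finset.sum_congr rfl fun d _ => ?_
      rw [Matrix.mul_smul, smul_smul]
    simp only [h5]
    calc ∑ c, g (i 2) c • (Δ * (Matrix.single c (i 3) 1 * g)) =
          Δ * ((∑ c, g (i 2) c • Matrix.single c (i 3) 1) * g) := by
          rw [Matrix.sum_mul, Matrix.mul_sum]
          refine Finset.sum_congr rfl fun c _ => ?_
          rw [Matrix.smul_mul, Matrix.mul_smul]
      _ = (Δ * gᵀ) * Matrix.single (i 2) (i 3) 1 * g := by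
          rw [single_left]
          simp only [Matrix.mul_assoc]
      _ = _ := by
          rw [h3, hC]
          simp only [Matrix.mul_assoc, Matrix.smul_mul]
  have h6 : (tp 4 g).mulVec (ofF Δ f) i =
      (g * f (∑ c, ∑ d, (g (i 2) c * g (i 3) d) • (Δ * Matrix.single c d (1 : K))) * Δ * gᵀ)
        (i 0) (i 1) := by
    simp only [Matrix.mulVec, dotProduct, tp, Matrix.of_apply, ofF, Fin.prod_univ_four]
    rw [sum_four (fun a b c d => g (i 0) a * g (i 1) b * g (i 2) c * g (i 3) d *
      (f (Δ * Matrix.single c d 1) * Δ) a b)]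
    simp only [map_sum, map_smul, Matrix.mul_sum, Matrix.sum_mul, Matrix.sum_apply,
      Matrix.mul_smul, Matrix.smul_mul, Matrix.smul_apply, smul_eq_mul]
    have h7 : ∀ c d, (g * f (Δ * Matrix.single c d 1) * Δ * gᵀ) (i 0) (i 1) =
        ∑ a, ∑ b, g (i 0) a * g (i 1) b * (f (Δ * Matrix.single c d 1) * Δ) a b := by
      intro c d
      rw [Matrix.mul_assoc g, Matrix.mul_apply, Finset.sum_comm]
      refine Finset.sum_congr rfl fun b _ => ?_
      rw [Matrix.mul_apply, Finset.sum_mul]
      refine Finset.sum_congr rfl fun a _ => ?_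
      rw [Matrix.transpose_apply]
      ring
    simp only [h7, Finset.mul_sum]
    rw [Finset.sum_congr rfl fun a _ => Finset.sum_comm]
    rw [Finset.sum_comm]
    refine Finset.sum_congr rfl fun c _ => ?_
    rw [Finset.sum_congr rfl fun a _ => Finset.sum_comm]
    rw [Finset.sum_comm]
    refine Finset.sum_congr rfl fun d _ => ?_
    refine Finset.sum_congr rfl fun a _ => Finset.sum_congr rfl fun b _ => ?_
    ring
  rw [h6, h4, map_smul, hf]
  have h8 : g * (c • (g' * f C * g)) * Δ * gᵀ = c ^ 2 • (f C * Δ) := by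
    calc g * (c • (g' * f C * g)) * Δ * gᵀ = c • ((g * g') * f C * (g * Δ * gᵀ)) := by
          simp only [Matrix.mul_smul, Matrix.smul_mul, Matrix.mul_assoc]
      _ = _ := by
          rw [h1, hg, Matrix.one_mul, Matrix.mul_smul, smul_smul, sq]
  rw [h8]
  rfl

lemma der_diagonal (v : ι → K) (a : Ten K ι k) (i : Fin k → ι) :
    der (Matrix.diagonal v) a i = (∑ r, v (i r)) * a i := by
  simp only [der, Finset.sum_mul]
  refine Finset.sum_congr rfl fun r _ => ?_
  rw [Finset.sum_eq_single (i r)]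
  · simp
  · intro s _ hs
    rw [Matrix.diagonal_apply_ne _ (Ne.symm hs), zero_mul]
  · intro h
    exact absurd (Finset.mem_univ _) h

/-- The projection to the matrices preserving the degrees. -/
def mask (wt : ι → ℕ) : Matrix ι ι K →ₗ[K] Matrix ι ι K where
  toFun y := Matrix.of fun i s => if wt i = wt s then y i s else 0
  map_add' x y := by
    ext i s
    simp only [Matrix.of_apply, Matrix.add_apply]
    split_ifs <;> simp
  map_smul' c y := by
    ext i s
    simp only [Matrix.of_apply, Matrix.smul_apply, RingHom.id_apply, smul_eq_mul]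
    split_ifs <;> simp

lemma mask_apply (wt : ι → ℕ) (y : Matrix ι ι K) (i s : ι) :
    mask wt y i s = if wt i = wt s then y i s else 0 := rfl

/-- The matrix preserves the degrees. -/
def Blk (wt : ι → ℕ) (M : Matrix ι ι K) : Prop := ∀ i s, M i s ≠ 0 → wt i = wt s

lemma Blk.add {wt : ι → ℕ} {M N : Matrix ι ι K} (hM : Blk wt M) (hN : Blk wt N) :
    Blk wt (M + N) := by
  intro i s h
  by_contra h'
  apply h
  rw [Matrix.add_apply, not_ne_iff.mp (mt (hM i s) h'), not_ne_iff.mp (mt (hN i s) h'), add_zero]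

lemma Blk.mul {wt : ι → ℕ} {M N : Matrix ι ι K} (hM : Blk wt M) (hN : Blk wt N) :
    Blk wt (M * N) := by
  intro i s h
  by_contra h'
  apply h
  rw [Matrix.mul_apply]
  refine Finset.sum_eq_zero fun t _ => ?_
  by_cases h1 : wt i = wt t
  · rw [not_ne_iff.mp (mt (hN t s) fun h2 => h' (h1.trans h2)), mul_zero]
  · rw [not_ne_iff.mp (mt (hM i t) h1), zero_mul]

lemma mask_blk (wt : ι → ℕ) (y : Matrix ι ι K) : Blk wt (mask wt y) := by
  intro i s h
  by_contra h'
  apply h
  rw [mask_apply, if_neg h']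

lemma mask_of_blk {wt : ι → ℕ} {y : Matrix ι ι K} (hy : Blk wt y) : mask wt y = y := by
  ext i s
  rw [mask_apply]
  split_ifs with h
  · rfl
  · exact (not_ne_iff.mp (mt (hy i s) h)).symm

lemma mask_mul_left {wt : ι → ℕ} {a : Matrix ι ι K} (ha : Blk wt a) (y : Matrix ι ι K) :
    mask wt (a * y) = a * mask wt y := by
  ext i s
  rw [mask_apply, Matrix.mul_apply, Matrix.mul_apply]
  split_ifs with h
  · refine Finset.sum_congr rfl fun t _ => ?_
    by_cases h1 : wt i = wt t
    · rw [mask_apply, if_pos (h1.symm.trans h)]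
    · rw [not_ne_iff.mp (mt (ha i t) h1), zero_mul, zero_mul]
  · refine (Finset.sum_eq_zero fun t _ => ?_).symm
    by_cases h1 : wt i = wt t
    · rw [mask_apply, if_neg fun h2 => h (h1.trans h2), mul_zero]
    · rw [not_ne_iff.mp (mt (ha i t) h1), zero_mul]

lemma mask_mul_right {wt : ι → ℕ} {a : Matrix ι ι K} (ha : Blk wt a) (y : Matrix ι ι K) :
    mask wt (y * a) = mask wt y * a := by
  ext i s
  rw [mask_apply, Matrix.mul_apply, Matrix.mul_apply]
  split_ifs with h
  · refine Finset.sum_congr rfl fun t _ => ?_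
    by_cases h1 : wt t = wt s
    · rw [mask_apply, if_pos (h.trans h1.symm)]
    · rw [not_ne_iff.mp (mt (ha t s) h1), mul_zero, mul_zero]
  · refine (Finset.sum_eq_zero fun t _ => ?_).symm
    by_cases h1 : wt t = wt s
    · rw [mask_apply, if_neg fun h2 => h (h2.trans h1), zero_mul]
    · rw [not_ne_iff.mp (mt (ha t s) h1), mul_zero]

end general

section charZero

variable {K ι : Type} [Field K] [CharZero K] [Fintype ι] [DecidableEq ι] {k : ℕ}

/-- The degree operator. -/
def wtM (K : Type) [Field K] {ι : Type} [DecidableEq ι] (wt : ι → ℕ) : Matrix ι ι K :=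
  Matrix.diagonal fun i => (wt i : K)

lemma blk_iff {wt : ι → ℕ} {M : Matrix ι ι K} : Blk wt M ↔ wtM K wt * M = M * wtM K wt := by
  constructor
  · intro h
    ext i s
    rw [wtM, Matrix.diagonal_mul, Matrix.mul_diagonal]
    by_cases h0 : M i s = 0
    · rw [h0, mul_zero, zero_mul]
    · rw [h i s h0, mul_comm]
  · intro h i s h0
    have := congrFun (congrFun h i) s
    rw [wtM, Matrix.diagonal_mul, Matrix.mul_diagonal, mul_comm] at this
    have h2 := mul_left_cancel₀ h0 this
    exact_mod_cast h2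

end charZero

end Pool.Agent.H67FP
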