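import Pool.Agent.H67FP.Padic
import Pool.Agent.H67FP.Alg

/-!
# Logarithms of `ℓ`-adic matrices

For a matrix `g` and a number `c` congruent to one modulo `ℓ ^ 2` there is a matrix `x` such that
a tensor `a` of degree `2 j` is fixed by `c ^ j g ⊗ … ⊗ g`, or by a power of this operator, if and
only if `x` kills `a` as a derivation.
-/

set_option autoImplicit false
set_option linter.unusedSectionVars false

open Filter Topology Matrix

namespace Pool.Agent.H67FP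

variable {ℓ : ℕ} [Fact ℓ.Prime]

/-- An ultrafilter on the natural numbers. -/
noncomputable def uf : Ultrafilter ℕ := hyperfilter ℕ

lemma uf_le : (uf : Filter ℕ) ≤ atTop := by
  rw [← Nat.cofinite_eq_atTop]
  exact hyperfilter_le_cofinite

lemma exists_lim (u : ℕ → ℚ_[ℓ]) (C : ℝ) (hu : ∀ m, ‖u m‖ ≤ C) :
    ∃ x, Tendsto u uf (𝓝 x) := by
  have hK : IsCompact (Metric.closedBall (0 : ℚ_[ℓ]) C) := isCompact_closedBall 0 C
  obtain ⟨x, _, hx⟩ := hK.ultrafilter_le_nhds (Ultrafilter.map u uf) (by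
    rw [le_principal_iff]
    have h : ∀ᶠ m in (uf : Filter ℕ), u m ∈ Metric.closedBall (0 : ℚ_[ℓ]) C :=
      Filter.Eventually.of_forall fun m => by simpa using hu m
    exact h)
  exact ⟨x, hx⟩

lemma tendsto_pow_zero : Tendsto (fun m : ℕ => (ℓ : ℚ_[ℓ]) ^ m) uf (𝓝 0) :=
  (tendsto_pow_atTop_nhds_zero_of_norm_lt_one (Padic.norm_p_lt_one)).mono_left uf_le

/-- The derivative of a product. -/
lemma prod_lim {α : Type} [DecidableEq α] (S : Finset α) (δ y : α → ℚ_[ℓ]) (z : ℕ → α → ℚ_[ℓ])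
    (hz : ∀ r, Tendsto (fun m => z m r) uf (𝓝 (y r))) :
    Tendsto (fun m : ℕ => ((ℓ : ℚ_[ℓ]) ^ m)⁻¹ *
      (∏ r ∈ S, (δ r + (ℓ : ℚ_[ℓ]) ^ m * z m r) - ∏ r ∈ S, δ r)) uf
      (𝓝 (∑ r ∈ S, y r * ∏ t ∈ S.erase r, δ t)) := by
  have hℓ : (ℓ : ℚ_[ℓ]) ≠ 0 := by
    have := (Fact.out : ℓ.Prime).ne_zero
    exact_mod_cast this
  induction S using Finset.induction_on with
  | empty => simp
  | insert a S ha ih =>
    have h1 : Tendsto (fun m : ℕ => δ a + (ℓ : ℚ_[ℓ]) ^ m * z m a) uf (𝓝 (δ a)) := by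
      have := (tendsto_pow_zero (ℓ := ℓ)).mul (hz a)
      simpa using (tendsto_const_nhds (x := δ a)).add this
    have h2 := (h1.mul ih).add ((hz a).mul (tendsto_const_nhds (x := ∏ r ∈ S, δ r)))
    refine (h2.congr fun m => ?_).trans (le_of_eq ?_)
    · rw [Finset.prod_insert ha, Finset.prod_insert ha]
      have h3 : ((ℓ : ℚ_[ℓ]) ^ m)⁻¹ * (ℓ : ℚ_[ℓ]) ^ m = 1 := inv_mul_cancel₀ (pow_ne_zero _ hℓ)
      linear_combination (-(z m a * ∏ r ∈ S, δ r)) * h3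
    · rw [Finset.sum_insert ha, Finset.erase_insert ha, Finset.mul_sum, add_comm]
      congr 2
      refine Finset.sum_congr rfl fun r hr => ?_
      have hra : r ≠ a := fun h => ha (h ▸ hr)
      rw [Finset.erase_insert_of_ne hra.symm, Finset.prod_insert (by
        intro h
        exact ha (Finset.mem_of_mem_erase h))]
      ring

lemma prod_near {α : Type} (S : Finset α) (u v : α → ℚ_[ℓ]) (ε : ℝ) (hε : 0 ≤ ε)
    (hu : ∀ r, ‖u r‖ ≤ 1) (hv : ∀ r, ‖v r‖ ≤ 1) (h : ∀ r, ‖u r - v r‖ ≤ ε) :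
    ‖∏ r ∈ S, u r - ∏ r ∈ S, v r‖ ≤ ε := by
  classical
  induction S using Finset.induction_on with
  | empty => simpa using hε
  | insert a S ha ih =>
    rw [Finset.prod_insert ha, Finset.prod_insert ha]
    have h1 : u a * ∏ r ∈ S, u r - v a * ∏ r ∈ S, v r =
        u a * (∏ r ∈ S, u r - ∏ r ∈ S, v r) + (u a - v a) * ∏ r ∈ S, v r := by ring
    rw [h1]
    refine (IsUltrametricDist.norm_add_le_max _ _).trans (max_le ?_ ?_)
    · rw [norm_mul]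
      calc ‖u a‖ * ‖∏ r ∈ S, u r - ∏ r ∈ S, v r‖ ≤ 1 * ε :=
            mul_le_mul (hu a) ih (norm_nonneg _) zero_le_one
        _ = ε := one_mul _
    · rw [norm_mul, norm_prod]
      calc ‖u a - v a‖ * ∏ r ∈ S, ‖v r‖ ≤ ε * 1 :=
            mul_le_mul (h a) (Finset.prod_le_one (fun _ _ => norm_nonneg _) fun r _ => hv r)
              (Finset.prod_nonneg fun _ _ => norm_nonneg _) hε
        _ = ε := mul_one _

variable {ι : Type} [Fintype ι] [DecidableEq ι]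

lemma one_entry_le (i s : ι) : ‖(1 : Matrix ι ι ℚ_[ℓ]) i s‖ ≤ 1 := by
  rw [Matrix.one_apply]
  split_ifs <;> simp

lemma near_tensor {g : Matrix ι ι ℚ_[ℓ]} (hg : Near g) (hg1 : ∀ i s, ‖g i s‖ ≤ 1) {c : ℚ_[ℓ]}
    (hc : ‖c - 1‖ ≤ ((ℓ : ℝ)⁻¹) ^ 2) (hc1 : ‖c‖ ≤ 1) (j k : ℕ) : Near (c ^ j • tp k g) := by
  intro i s
  have h0 : (0 : ℝ) ≤ ((ℓ : ℝ)⁻¹) ^ 2 := by positivity
  have h1 : (1 : Matrix (Fin k → ι) (Fin k → ι) ℚ_[ℓ]) i s =
      ∏ r, (1 : Matrix ι ι ℚ_[ℓ]) (i r) (s r) := by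
    rw [← tp_one]
    rfl
  have h2 : ‖∏ r, g (i r) (s r) - ∏ r, (1 : Matrix ι ι ℚ_[ℓ]) (i r) (s r)‖ ≤
      ((ℓ : ℝ)⁻¹) ^ 2 :=
    prod_near _ _ _ _ h0 (fun r => hg1 _ _) (fun r => one_entry_le _ _) fun r => hg _ _
  have h3 : ‖c ^ j - 1‖ ≤ ((ℓ : ℝ)⁻¹) ^ 2 := by
    have := prod_near (Finset.range j) (fun _ => c) (fun _ => (1 : ℚ_[ℓ])) _ h0 (fun _ => hc1)
      (fun _ => by simp) (fun _ => hc)
    simpa using this
  have h4 : ‖∏ r, g (i r) (s r)‖ ≤ 1 := by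
    rw [norm_prod]
    exact Finset.prod_le_one (fun _ _ => norm_nonneg _) fun r _ => hg1 _ _
  have h5 : (c ^ j • tp k g - 1) i s = (c ^ j - 1) * ∏ r, g (i r) (s r) +
      (∏ r, g (i r) (s r) - ∏ r, (1 : Matrix ι ι ℚ_[ℓ]) (i r) (s r)) := by
    rw [Matrix.sub_apply, Matrix.smul_apply, h1, smul_eq_mul]
    simp only [tp, Matrix.of_apply]
    ring
  rw [h5]
  refine (IsUltrametricDist.norm_add_le_max _ _).trans (max_le ?_ h2)
  rw [norm_mul]
  calc _ ≤ ((ℓ : ℝ)⁻¹) ^ 2 * 1 := mul_le_mul h3 h4 (norm_nonneg _) h0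
    _ = _ := mul_one _

/-- The formula for the derivation. -/
lemma der_eq (x : Matrix ι ι ℚ_[ℓ]) {k : ℕ} (a : Ten ℚ_[ℓ] ι k) (i : Fin k → ι) :
    ∑ s : Fin k → ι, (∑ r, x (i r) (s r) *
      ∏ t ∈ Finset.univ.erase r, (1 : Matrix ι ι ℚ_[ℓ]) (i t) (s t)) * a s = der x a i := by
  simp only [Finset.sum_mul]
  rw [Finset.sum_comm]
  refine Finset.sum_congr rfl fun r _ => ?_
  symm
  refine Fintype.sum_of_injective (fun t => Function.update i r t) ?_ _ _ ?_ ?_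
  · intro t t' h
    simpa using congrFun h r
  · intro s hs
    have : ∃ t, t ≠ r ∧ i t ≠ s t := by
      by_contra h
      push Not at h
      refine hs ⟨s r, ?_⟩
      funext t
      by_cases ht : t = r
      · subst ht
        simp
      · simpa [Function.update_of_ne ht] using h t ht
    obtain ⟨t, ht, hne⟩ := this
    have h0 : ∏ t ∈ Finset.univ.erase r, (1 : Matrix ι ι ℚ_[ℓ]) (i t) (s t) = 0 :=
      Finset.prod_eq_zero (Finset.mem_erase.mpr ⟨ht, Finset.mem_univ t⟩)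
        (Matrix.one_apply_ne hne)
    simp only [h0, mul_zero, zero_mul]
  · intro t
    have h1 : ∏ t' ∈ Finset.univ.erase r,
        (1 : Matrix ι ι ℚ_[ℓ]) (i t') (Function.update i r t t') = 1 := by
      refine Finset.prod_eq_one fun t' ht' => ?_
      rw [Function.update_of_ne (Finset.ne_of_mem_erase ht'), Matrix.one_apply_eq]
    simp only [h1, Function.update_self, mul_one]

/-- The logarithm of `(g, c)`, acting on tensors of degree `2 j` with a twist by `j`. -/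
lemma exists_log (wt : ι → ℕ) {g : Matrix ι ι ℚ_[ℓ]} (hg : Near g) (hg1 : ∀ i s, ‖g i s‖ ≤ 1)
    {c : ℚ_[ℓ]} (hc : ‖c - 1‖ ≤ ((ℓ : ℝ)⁻¹) ^ 2) (hc1 : ‖c‖ ≤ 1) :
    ∃ x : Matrix ι ι ℚ_[ℓ],
      (∀ (j k : ℕ) (a : Ten ℚ_[ℓ] ι k), (∀ i, a i ≠ 0 → ∑ r, wt (i r) = 2 * j) →
        ∀ n : ℕ, n ≠ 0 → ((c ^ j • tp k g) ^ n).mulVec a = a → der x a = 0) ∧
      (∀ (j k : ℕ) (a : Ten ℚ_[ℓ] ι k), (∀ i, a i ≠ 0 → ∑ r, wt (i r) = 2 * j) →
        der x a = 0 → (c ^ j • tp k g).mulVec a = a) := by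
  have hℓ : (ℓ : ℚ_[ℓ]) ≠ 0 := by
    have := (Fact.out : ℓ.Prime).ne_zero
    exact_mod_cast this
  have hcpos := c_pos (ℓ := ℓ)
  have hclt := c_lt (ℓ := ℓ)
  -- the matrices `A m = (g ^ (ℓ ^ m) - 1) / ℓ ^ m` are bounded
  have hA : ∀ i s m, ‖((ℓ : ℚ_[ℓ]) ^ m)⁻¹ * (g ^ (ℓ ^ m) - 1) i s‖ ≤ 1 := by
    intro i s m
    have h1 := norm_pow_pow_sub hg m (Pi.single s 1)
    have h2 : ‖(g ^ (ℓ ^ m) - 1) i s‖ ≤ ((ℓ : ℝ)⁻¹) ^ m := by
      have h3 : (g ^ (ℓ ^ m) - 1) i s = (g ^ (ℓ ^ m) - 1).mulVec (Pi.single s 1) i := by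
        simp
      rw [h3]
      refine (norm_le_pi_norm _ i).trans ?_
      rw [h1]
      have h4 : ‖(g - 1).mulVec (Pi.single s (1 : ℚ_[ℓ]))‖ ≤ 1 := by
        rw [pi_norm_le_iff_of_nonneg zero_le_one]
        intro t
        have h5 : (g - 1).mulVec (Pi.single s (1 : ℚ_[ℓ])) t = (g - 1) t s := by simp
        rw [h5]
        refine (hg t s).trans ?_
        exact pow_le_one₀ hcpos.le hclt.le
      calc _ ≤ ((ℓ : ℝ)⁻¹) ^ m * 1 := mul_le_mul_of_nonneg_left h4 (by positivity)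
        _ = _ := mul_one _
    rw [norm_mul, norm_inv, norm_pow, Padic.norm_p]
    have h6 : (0 : ℝ) < ((ℓ : ℝ)⁻¹) ^ m := by positivity
    rw [inv_mul_le_iff₀ h6, mul_one]
    exact h2
  have hB : ∀ m : ℕ, ‖((ℓ : ℚ_[ℓ]) ^ m)⁻¹ * (c ^ (ℓ ^ m) - 1)‖ ≤ 1 := by
    intro m
    have hN : Near (Matrix.diagonal fun _ : Unit => c) := by
      intro i s
      have : (Matrix.diagonal (fun _ : Unit => c) - 1) i s = c - 1 := by
        rw [Matrix.sub_apply, Subsingleton.elim s i, Matrix.diagonal_apply_eq,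
          Matrix.one_apply_eq]
      rw [this]
      exact hc
    have h1 := norm_pow_pow_sub hN m (fun _ => (1 : ℚ_[ℓ]))
    have h2 : ((Matrix.diagonal (fun _ : Unit => c)) ^ (ℓ ^ m) - 1).mulVec (fun _ => (1 : ℚ_[ℓ])) =
        fun _ => c ^ (ℓ ^ m) - 1 := by
      rw [Matrix.diagonal_pow, Matrix.sub_mulVec, Matrix.one_mulVec]
      funext u
      simp [Matrix.mulVec_diagonal]
    have h3 : ((Matrix.diagonal (fun _ : Unit => c)) - 1).mulVec (fun _ => (1 : ℚ_[ℓ])) =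
        fun _ => c - 1 := by
      rw [Matrix.sub_mulVec, Matrix.one_mulVec]
      funext u
      simp [Matrix.mulVec_diagonal]
    rw [h2, h3, pi_norm_const, pi_norm_const] at h1
    rw [norm_mul, norm_inv, norm_pow, Padic.norm_p, h1]
    have h6 : (0 : ℝ) < ((ℓ : ℝ)⁻¹) ^ m := by positivity
    rw [← mul_assoc, inv_mul_cancel₀ h6.ne', one_mul]
    exact hc.trans (pow_le_one₀ hcpos.le hclt.le)
  have hlim1 : ∀ i s, ∃ y, Tendsto (fun m => ((ℓ : ℚ_[ℓ]) ^ m)⁻¹ * (g ^ (ℓ ^ m) - 1) i s) uf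
      (𝓝 y) := fun i s => exists_lim _ 1 (hA i s)
  choose x hx using hlim1
  obtain ⟨μ, hμ⟩ := exists_lim _ 1 hB
  -- the limit
  have key : ∀ (j k : ℕ) (a : Ten ℚ_[ℓ] ι k), (∀ i, a i ≠ 0 → ∑ r, wt (i r) = 2 * j) →
      Tendsto (fun m => (((ℓ : ℚ_[ℓ]) ^ m)⁻¹ •
        ((c ^ j • tp k g) ^ (ℓ ^ m) - 1).mulVec a : Ten ℚ_[ℓ] ι k)) uf
        (𝓝 (der (Matrix.of x + (μ / 2) • wtM ℚ_[ℓ] wt) a)) := by
    intro j k a ha
    rw [tendsto_pi_nhds]
    intro i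
    have e1 : der (Matrix.of x + (μ / 2) • wtM ℚ_[ℓ] wt) a i =
        (j : ℚ_[ℓ]) * μ * a i + der (Matrix.of x) a i := by
      have : der (Matrix.of x + (μ / 2) • wtM ℚ_[ℓ] wt) a =
          der (Matrix.of x) a + (μ / 2) • der (wtM ℚ_[ℓ] wt) a := by
        rw [← derL_apply, map_add, map_smul]
        rfl
      rw [this, Pi.add_apply, Pi.smul_apply, wtM, der_diagonal, smul_eq_mul, add_comm]
      congr 1
      by_cases h0 : a i = 0
      · rw [h0, mul_zero, mul_zero, mul_zero]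
      · have h7 : (∑ r, (wt (i r) : ℚ_[ℓ])) = 2 * j := by
          have := ha i h0
          exact_mod_cast this
        rw [h7]
        ring
    have e2 : ∀ m : ℕ, (((ℓ : ℚ_[ℓ]) ^ m)⁻¹ •
        ((c ^ j • tp k g) ^ (ℓ ^ m) - 1).mulVec a) i =
        (((ℓ : ℚ_[ℓ]) ^ m)⁻¹ * ((c ^ (ℓ ^ m)) ^ j - 1)) * a i +
        (c ^ (ℓ ^ m)) ^ j * ∑ s : Fin k → ι, (((ℓ : ℚ_[ℓ]) ^ m)⁻¹ *
          (∏ r, (g ^ (ℓ ^ m)) (i r) (s r) - ∏ r, (1 : Matrix ι ι ℚ_[ℓ]) (i r) (s r))) * a s := by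
      intro m
      rw [Pi.smul_apply, smul_eq_mul, smul_pow, ← tp_pow, Matrix.sub_mulVec, Matrix.one_mulVec,
        Matrix.smul_mulVec, Pi.sub_apply, Pi.smul_apply, smul_eq_mul]
      have h8 : a i = (tp k (1 : Matrix ι ι ℚ_[ℓ])).mulVec a i := by
        rw [tp_one, Matrix.one_mulVec]
      have h9 : ∀ h : Matrix ι ι ℚ_[ℓ], (tp k h).mulVec a i = ∑ s, (∏ r, h (i r) (s r)) * a s :=
        fun h => rfl
      have h10 : ∑ s : Fin k → ι, (((ℓ : ℚ_[ℓ]) ^ m)⁻¹ *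
          (∏ r, (g ^ (ℓ ^ m)) (i r) (s r) - ∏ r, (1 : Matrix ι ι ℚ_[ℓ]) (i r) (s r))) * a s =
          ((ℓ : ℚ_[ℓ]) ^ m)⁻¹ * ((tp k (g ^ ℓ ^ m)).mulVec a i - a i) := by
        rw [h8, h9, h9, ← Finset.sum_sub_distrib, Finset.mul_sum]
        refine Finset.sum_congr rfl fun s _ => ?_
        ring
      rw [h10, ← pow_mul c, ← pow_mul c, mul_comm j (ℓ ^ m)]
      ring
    have l1 : Tendsto (fun m => ((ℓ : ℚ_[ℓ]) ^ m)⁻¹ * ((c ^ (ℓ ^ m)) ^ j - 1)) uf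
        (𝓝 ((j : ℚ_[ℓ]) * μ)) := by
      have := prod_lim (Finset.range j) (fun _ => (1 : ℚ_[ℓ])) (fun _ => μ)
        (fun m _ => ((ℓ : ℚ_[ℓ]) ^ m)⁻¹ * (c ^ (ℓ ^ m) - 1)) (fun _ => hμ)
      refine (this.congr fun m => ?_).trans (le_of_eq ?_)
      · rw [Finset.prod_const, Finset.prod_const_one, Finset.card_range, ← mul_assoc,
          mul_inv_cancel₀ (pow_ne_zero _ hℓ), one_mul, add_sub_cancel]
      · simp
    have l0 : Tendsto (fun m : ℕ => (c ^ (ℓ ^ m)) ^ j) uf (𝓝 1) := by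
      have h11 := (tendsto_pow_zero (ℓ := ℓ)).mul l1
      have h12 := h11.add (tendsto_const_nhds (x := (1 : ℚ_[ℓ])))
      rw [zero_mul, zero_add] at h12
      refine h12.congr fun m => ?_
      rw [← mul_assoc, mul_inv_cancel₀ (pow_ne_zero _ hℓ), one_mul, sub_add_cancel]
    have l2 : ∀ s : Fin k → ι, Tendsto (fun m : ℕ => ((ℓ : ℚ_[ℓ]) ^ m)⁻¹ *
        (∏ r, (g ^ (ℓ ^ m)) (i r) (s r) - ∏ r, (1 : Matrix ι ι ℚ_[ℓ]) (i r) (s r))) uf
        (𝓝 (∑ r, x (i r) (s r) *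
          ∏ t ∈ Finset.univ.erase r, (1 : Matrix ι ι ℚ_[ℓ]) (i t) (s t))) := by
      intro s
      have := prod_lim Finset.univ (fun r => (1 : Matrix ι ι ℚ_[ℓ]) (i r) (s r))
        (fun r => x (i r) (s r)) (fun m r => ((ℓ : ℚ_[ℓ]) ^ m)⁻¹ * (g ^ (ℓ ^ m) - 1) (i r) (s r))
        (fun r => hx (i r) (s r))
      refine this.congr fun m => ?_
      congr 2
      refine Finset.prod_congr rfl fun r _ => ?_
      rw [← mul_assoc, mul_inv_cancel₀ (pow_ne_zero _ hℓ), one_mul, Matrix.sub_apply,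
        add_sub_cancel]
    have l3 := (l1.mul (tendsto_const_nhds (x := a i))).add (l0.mul
      (tendsto_finsetSum Finset.univ fun s _ => (l2 s).mul (tendsto_const_nhds (x := a s))))
    rw [e1, ← der_eq]
    refine (l3.congr fun m => (e2 m).symm).trans (le_of_eq ?_)
    rw [one_mul]
    rfl
  refine ⟨Matrix.of x + (μ / 2) • wtM ℚ_[ℓ] wt, ?_, ?_⟩
  · intro j k a ha n hn hfix
    have h1 := fixed_of_pow n hn (near_tensor hg hg1 hc hc1 j k) a hfix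
    have h2 : ∀ N : ℕ, ((c ^ j • tp k g) ^ N).mulVec a = a := by
      intro N
      induction N with
      | zero => simp
      | succ N ih => rw [pow_succ, ← Matrix.mulVec_mulVec, h1, ih]
    have h3 := key j k a ha
    refine tendsto_nhds_unique h3 ?_
    refine tendsto_const_nhds.congr fun m => ?_
    rw [Matrix.sub_mulVec, h2, Matrix.one_mulVec, sub_self, smul_zero]
  · intro j k a ha h0
    have h3 := key j k a ha
    rw [h0] at h3
    have h4 := h3.norm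
    rw [norm_zero] at h4
    have h5 : ∀ m : ℕ, ‖(((ℓ : ℚ_[ℓ]) ^ m)⁻¹ •
        ((c ^ j • tp k g) ^ (ℓ ^ m) - 1).mulVec a : Ten ℚ_[ℓ] ι k)‖ =
        ‖(c ^ j • tp k g - 1).mulVec a‖ := by
      intro m
      rw [norm_smul, norm_pow_pow_sub (near_tensor hg hg1 hc hc1 j k), norm_inv, norm_pow,
        Padic.norm_p, ← mul_assoc, inv_mul_cancel₀ (by positivity), one_mul]
    have h6 : ‖(c ^ j • tp k g - 1).mulVec a‖ = 0 := by
      refine tendsto_nhds_unique ?_ h4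
      exact tendsto_const_nhds.congr fun m => (h5 m).symm
    rw [norm_eq_zero, Matrix.sub_mulVec, Matrix.one_mulVec, sub_eq_zero] at h6
    exact h6

end Pool.Agent.H67FP
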