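import Pool.Agent.H67FP.Defs

/-!
# Decomposition of vectors over a field of characteristic zero into rational vectors
-/

set_option autoImplicit false
set_option linter.unusedSectionVars false

open Matrix

namespace Pool.Agent.H67FP

variable {K : Type} [Field K] [CharZero K]

lemma decomp {α : Type} [Finite α] (x : α → K) : ∃ (r : ℕ) (b : Fin r → K) (c : Fin r → α → ℚ),
    LinearIndependent ℚ b ∧ ∀ i, x i = ∑ m, b m * (c m i : K) := by
  set U := Submodule.span ℚ (Set.range x) with hU
  have hfin : Module.Finite ℚ U := by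
    rw [hU]
    exact Module.Finite.span_of_finite ℚ (Set.finite_range x)
  let B := Module.finBasis ℚ U
  have hx : ∀ i, x i ∈ U := fun i => Submodule.subset_span ⟨i, rfl⟩
  refine ⟨Module.finrank ℚ U, fun m => (B m : K), fun m i => B.repr ⟨x i, hx i⟩ m, ?_, ?_⟩
  · exact B.linearIndependent.map' U.subtype U.ker_subtype
  · intro i
    have h := B.sum_repr ⟨x i, hx i⟩
    have h2 := congrArg (fun u : U => (u : K)) h
    simp only [Submodule.coe_sum, Submodule.coe_smul] at h2
    rw [← h2]
    refine Finset.sum_congr rfl fun m _ => ?_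
    rw [Rat.smul_def, mul_comm]

lemma coeff_zero {r : ℕ} {b : Fin r → K} (hb : LinearIndependent ℚ b) (q : Fin r → ℚ)
    (h : ∑ m, b m * (q m : K) = 0) (m : Fin r) : q m = 0 := by
  rw [Fintype.linearIndependent_iff] at hb
  refine hb q ?_ m
  rw [← h]
  refine Finset.sum_congr rfl fun m _ => ?_
  rw [Rat.smul_def, mul_comm]

lemma decompM {ι : Type} [Finite ι] (x : Matrix ι ι K) :
    ∃ (r : ℕ) (b : Fin r → K) (c : Fin r → Matrix ι ι ℚ),
      LinearIndependent ℚ b ∧ x = ∑ m, b m • ext K (c m) := by
  obtain ⟨r, b, c, hb, h⟩ := decomp (fun p : ι × ι => x p.1 p.2)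
  refine ⟨r, b, fun m => Matrix.of fun i j => c m (i, j), hb, ?_⟩
  ext i j
  rw [Matrix.sum_apply]
  have := h (i, j)
  simp only at this
  rw [this]
  refine Finset.sum_congr rfl fun m _ => ?_
  simp [ext]

lemma decompT {ι : Type} [Finite ι] {k : ℕ} (x : Ten K ι k) :
    ∃ (r : ℕ) (b : Fin r → K) (c : Fin r → Ten ℚ ι k),
      LinearIndependent ℚ b ∧ x = ∑ m, b m • extT K (c m) := by
  obtain ⟨r, b, c, hb, h⟩ := decomp x
  refine ⟨r, b, c, hb, ?_⟩
  funext i
  rw [Finset.sum_apply, h]
  refine Finset.sum_congr rfl fun m _ => ?_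
  simp [extT]

/-- If a linear combination of rational matrices with independent coefficients is zero then the
matrices are zero. -/
lemma coeffM_zero {m n : Type} {r : ℕ} {b : Fin r → K} (hb : LinearIndependent ℚ b)
    (c : Fin r → Matrix m n ℚ) (h : ∑ t, b t • ext K (c t) = 0) (t : Fin r) : c t = 0 := by
  ext i j
  refine coeff_zero hb (fun t => c t i j) ?_ t
  have := congrFun (congrFun h i) j
  rw [Matrix.sum_apply] at this
  simpa [ext] using this

lemma coeffT_zero {ι : Type} {k : ℕ} {r : ℕ} {b : Fin r → K} (hb : LinearIndependent ℚ b)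
    (c : Fin r → Ten ℚ ι k) (h : ∑ t, b t • extT K (c t) = 0) (t : Fin r) : c t = 0 := by
  funext i
  refine coeff_zero hb (fun t => c t i) ?_ t
  have := congrFun h i
  rw [Finset.sum_apply] at this
  simpa [extT] using this

end Pool.Agent.H67FP
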