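import Mathlib

/-!
# Hodge classes and Tate classes on the powers of a variety, in coordinates

Let `Y` be a smooth projective variety of dimension `d` over a number field `L ⊂ ℂ`, and let `V` be
the cohomology `H^*(Y(ℂ), ℤ)` modulo torsion, with a basis `e i` of homogeneous elements, where
`i ∈ ι`, of degrees `wt i`. By the formula of Künneth the cohomology `H^{2j}(Y ^ k)` is the part of
degree `2 j` of the tensor power of degree `k` of `V`.
-/

set_option autoImplicit false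

open Matrix

namespace Pool.Agent.H67FP

noncomputable section

/-- Tensors of degree `k` on `K ^ ι`, given by their coordinates. -/
abbrev Ten (K ι : Type) (k : ℕ) : Type := (Fin k → ι) → K

section

variable {K ι : Type} [CommRing K] [Fintype ι] [DecidableEq ι] {k : ℕ}

/-- The matrix `g ⊗ … ⊗ g`, acting on tensors of degree `k`. -/
def tp (k : ℕ) (g : Matrix ι ι K) : Matrix (Fin k → ι) (Fin k → ι) K :=
  Matrix.of fun i s => ∏ r, g (i r) (s r)

/-- The action of `x` on tensors as a derivation: the sum of the `1 ⊗ … ⊗ x ⊗ … ⊗ 1`. -/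
def der (x : Matrix ι ι K) (a : Ten K ι k) : Ten K ι k :=
  fun i => ∑ r, ∑ s : ι, x (i r) s * a (Function.update i r s)

end

/-- A rational matrix as a matrix over a field of characteristic zero. -/
def ext (K : Type) [Field K] [CharZero K] {m n : Type} (M : Matrix m n ℚ) : Matrix m n K :=
  M.map fun q => (q : K)

/-- A rational tensor as a tensor over a field of characteristic zero. -/
def extT (K : Type) [Field K] [CharZero K] {ι : Type} {k : ℕ} (a : Ten ℚ ι k) : Ten K ι k :=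
  fun i => (a i : K)

/-- The cohomology of a smooth projective variety `Y` of dimension `d` over a number field, in
coordinates: `Γ` is the absolute Galois group of the number field, `ρ` is its action on the integral
`ℓ`-adic cohomology modulo torsion, `χ` is the cyclotomic character, `H` is the multiplication by
`p - q` on the part of type `(p, q)` of the complex cohomology, and `Δ` is the class of the
diagonal. -/
structure Cohomology (ℓ : ℕ) [Fact ℓ.Prime] (Γ ι : Type) [Group Γ] [Fintype ι]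
    [DecidableEq ι] where
  /-- the degrees of the elements of the basis of the cohomology -/
  wt : ι → ℕ
  /-- the dimension of the variety -/
  d : ℕ
  /-- the class of the diagonal in `H ^ 2d (Y × Y)` -/
  Δ : Matrix ι ι ℚ
  /-- the Hodge decomposition: multiplication by `p - q` on the part of type `(p, q)` -/
  H : Matrix ι ι ℂ
  /-- the action of the Galois group on the `ℓ`-adic cohomology -/
  ρ : Γ →* (Matrix ι ι ℤ_[ℓ])ˣ
  /-- the cyclotomic character -/
  χ : Γ →* ℤ_[ℓ]ˣ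
  det_Δ : Δ.det ≠ 0
  wt_Δ : ∀ i s, Δ i s ≠ 0 → wt i + wt s = 2 * d
  wt_H : ∀ i s, H i s ≠ 0 → wt i = wt s
  wt_ρ : ∀ γ i s, (ρ γ).1 i s ≠ 0 → wt i = wt s
  H_Δ : H * ext ℂ Δ + ext ℂ Δ * Hᵀ = 0
  ρ_Δ : ∀ γ, (((χ γ : ℤ_[ℓ]) : ℚ_[ℓ]) ^ d) •
    ((ρ γ).1.map (fun z : ℤ_[ℓ] => (z : ℚ_[ℓ])) * ext ℚ_[ℓ] Δ *
      ((ρ γ).1.map (fun z : ℤ_[ℓ] => (z : ℚ_[ℓ])))ᵀ) = ext ℚ_[ℓ] Δ

namespace Cohomology

variable {ℓ : ℕ} [Fact ℓ.Prime] {Γ ι : Type} [Group Γ] [Fintype ι] [DecidableEq ι]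
  (D : Cohomology ℓ Γ ι)

/-- The action of the Galois group on the rational `ℓ`-adic cohomology. -/
def rho (γ : Γ) : Matrix ι ι ℚ_[ℓ] := (D.ρ γ).1.map fun z : ℤ_[ℓ] => (z : ℚ_[ℓ])

/-- The cyclotomic character. -/
def chi (γ : Γ) : ℚ_[ℓ] := ((D.χ γ : ℤ_[ℓ]) : ℚ_[ℓ])

/-- Tate classes in `H ^ 2j (Y ^ k, ℚ_ℓ (j))`: tensors of degree `2 j` fixed by a subgroup of finite
index of the Galois group. -/
def IsTate (j k : ℕ) (a : Ten ℚ_[ℓ] ι k) : Prop :=
  (∀ i, a i ≠ 0 → ∑ r, D.wt (i r) = 2 * j) ∧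
    ∃ Γ' : Subgroup Γ, Γ'.FiniteIndex ∧
      ∀ γ ∈ Γ', (D.chi γ) ^ j • (tp k (D.rho γ)).mulVec a = a

/-- Hodge classes in `H ^ 2j (Y ^ k, ℚ)`: rational tensors of degree `2 j` killed by `H`, that is,
of type `(j, j)`. -/
def IsHodge (j k : ℕ) (a : Ten ℚ ι k) : Prop :=
  (∀ i, a i ≠ 0 → ∑ r, D.wt (i r) = 2 * j) ∧ der D.H (extT ℂ a) = 0

/-- The space generated by the Tate classes in `H ^ 2j (Y ^ k, ℚ_ℓ (j))`. -/
def tateSpan (j k : ℕ) : Submodule ℚ_[ℓ] (Ten ℚ_[ℓ] ι k) :=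
  Submodule.span ℚ_[ℓ] {a | D.IsTate j k a}

/-- The space generated by the Hodge classes in `H ^ 2j (Y ^ k, ℚ_ℓ (j))`. -/
def hodgeSpan (j k : ℕ) : Submodule ℚ_[ℓ] (Ten ℚ_[ℓ] ι k) :=
  Submodule.span ℚ_[ℓ] {b | ∃ a, D.IsHodge j k a ∧ b = extT ℚ_[ℓ] a}

/-- The representation of the Galois group on the endomorphisms of the cohomology, that is on
`H^*(Y × Y)`, is semisimple. -/
def GaloisSemisimple : Prop :=
  ∀ W : Submodule ℚ_[ℓ] (Matrix ι ι ℚ_[ℓ]), (∀ γ, ∀ y ∈ W, D.rho γ * y * D.rho γ⁻¹ ∈ W) →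
    ∃ W' : Submodule ℚ_[ℓ] (Matrix ι ι ℚ_[ℓ]),
      (∀ γ, ∀ y ∈ W', D.rho γ * y * D.rho γ⁻¹ ∈ W') ∧ IsCompl W W'

/-- The space of rational matrices is a Hodge substructure of the endomorphisms of the
cohomology. -/
def IsSubHodge (W : Submodule ℚ (Matrix ι ι ℚ)) : Prop :=
  ∀ y ∈ W, D.H * ext ℂ y - ext ℂ y * D.H ∈ Submodule.span ℂ {x | ∃ y' ∈ W, x = ext ℂ y'}

/-- The Hodge structure of the endomorphisms of the cohomology is semisimple (it is polarizable). -/
def HodgeSemisimple : Prop :=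
  ∀ W : Submodule ℚ (Matrix ι ι ℚ), D.IsSubHodge W → ∃ W', D.IsSubHodge W' ∧ IsCompl W W'

/-- Endomorphisms (preserving degrees) of the rational Hodge structure on the cohomology. -/
def IsHodgeEnd (e : Matrix ι ι ℚ) : Prop :=
  (∀ i s, e i s ≠ 0 → D.wt i = D.wt s) ∧ ext ℂ e * D.H = D.H * ext ℂ e

/-- The centres agree: if an element `z` of the centre of the algebra of endomorphisms of the Hodge
structure, with `ℓ`-adic coefficients, kills (as a derivation) the classes on all the powers which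
are both Hodge and Tate, then it kills all the Hodge and all the Tate classes. -/
def CentresAgree : Prop :=
  ∀ z ∈ Submodule.span ℚ_[ℓ] {x | ∃ e, D.IsHodgeEnd e ∧ x = ext ℚ_[ℓ] e},
    (∀ e, D.IsHodgeEnd e → z * ext ℚ_[ℓ] e = ext ℚ_[ℓ] e * z) →
    (∀ j k, ∀ a ∈ D.tateSpan j k ⊓ D.hodgeSpan j k, der z a = 0) →
    ∀ j k, ∀ a ∈ D.tateSpan j k ⊔ D.hodgeSpan j k, der z a = 0

/-- There are no factors of type IV: there are classes `b w` of the type of a polarization, in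
`H ^ w (Y) ⊗ H ^ w (Y)`, the involution of which is trivial on the centre of the algebra of
endomorphisms of the Hodge structure. Here `b` is the sum of the `b w`. -/
def NoTypeFour : Prop :=
  ∃ b : Matrix ι ι ℚ, b.det ≠ 0 ∧ (∀ i s, b i s ≠ 0 → D.wt i = D.wt s) ∧
    D.H * ext ℂ b + ext ℂ b * D.Hᵀ = 0 ∧
    (∀ γ i s, D.chi γ ^ D.wt i * (D.rho γ * ext ℚ_[ℓ] b * (D.rho γ)ᵀ) i s = (b i s : ℚ_[ℓ])) ∧
    ∀ c, D.IsHodgeEnd c → (∀ e, D.IsHodgeEnd e → c * e = e * c) → c * b = b * cᵀ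

end Cohomology

end

end Pool.Agent.H67FP
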