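import Pool.Agent.H67FP.Alg

/-!
# Derivations and conjugation
-/

set_option autoImplicit false
set_option linter.unusedSectionVars false

open Matrix

namespace Pool.Agent.H67FP

variable {K ι : Type} [CommRing K] [Fintype ι] [DecidableEq ι] {k : ℕ}

/-- The matrix `G 0 ⊗ G 1 ⊗ …`. -/
def tpf (G : Fin k → Matrix ι ι K) : Matrix (Fin k → ι) (Fin k → ι) K :=
  Matrix.of fun i s => ∏ r, G r (i r) (s r)

lemma tpf_mul (G H : Fin k → Matrix ι ι K) : tpf G * tpf H = tpf fun r => G r * H r := by
  ext i s
  simp only [tpf, Matrix.of_apply, Matrix.mul_apply]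
  rw [Finset.prod_univ_sum]
  simp [Fintype.piFinset_univ, Finset.prod_mul_distrib]

lemma tp_eq_tpf (g : Matrix ι ι K) : tp k g = tpf fun _ => g := rfl

/-- `1 ⊗ … ⊗ x ⊗ … ⊗ 1` -/
def one' (r : Fin k) (x : Matrix ι ι K) : Matrix (Fin k → ι) (Fin k → ι) K :=
  tpf (Function.update (fun _ => 1) r x)

lemma one'_mulVec (r : Fin k) (x : Matrix ι ι K) (a : Ten K ι k) (i : Fin k → ι) :
    (one' r x).mulVec a i = ∑ t, x (i r) t * a (Function.update i r t) := by
  symm
  refine Fintype.sum_of_injective (fun t => Function.update i r t) ?_ _ _ ?_ ?_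
  · intro t t' h
    simpa using congrFun h r
  · intro s hs
    have : ∃ t, t ≠ r ∧ i t ≠ s t := by
      by_contra h
      push Not at h
      refine hs ⟨s r, ?_⟩
      funext t
      by_cases ht : t = r
      · subst ht
        simp
      · simpa [Function.update_of_ne ht] using h t ht
    obtain ⟨t, ht, hne⟩ := this
    have h0 : one' r x i s = 0 := by
      simp only [one', tpf, Matrix.of_apply]
      refine Finset.prod_eq_zero (Finset.mem_univ t) ?_
      rw [Function.update_of_ne ht, Matrix.one_apply_ne hne]
    change one' r x i s * a s = 0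
    rw [h0, zero_mul]
  · intro t
    have h1 : one' r x i (Function.update i r t) = x (i r) t := by
      simp only [one', tpf, Matrix.of_apply]
      rw [Finset.prod_eq_single r]
      · simp
      · intro t' _ ht'
        rw [Function.update_of_ne ht', Function.update_of_ne ht', Matrix.one_apply_eq]
      · intro h
        exact absurd (Finset.mem_univ _) h
    change _ = one' r x i (Function.update i r t) * _
    rw [h1]

/-- The matrix of the derivation. -/
def derM (k : ℕ) (x : Matrix ι ι K) : Matrix (Fin k → ι) (Fin k → ι) K := ∑ r : Fin k, one' r x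

lemma derM_mulVec (x : Matrix ι ι K) (a : Ten K ι k) : (derM k x).mulVec a = der x a := by
  funext i
  rw [derM, Matrix.sum_mulVec, Finset.sum_apply]
  exact Finset.sum_congr rfl fun r _ => one'_mulVec r x a i

lemma one'_mul_same (r : Fin k) (x y : Matrix ι ι K) : one' r x * one' r y = one' r (x * y) := by
  rw [one', one', tpf_mul, one']
  congr 1
  funext t
  by_cases h : t = r
  · subst h
    simp
  · simp [Function.update_of_ne h]

lemma one'_comm {r s : Fin k} (h : r ≠ s) (x y : Matrix ι ι K) :
    one' r x * one' s y = one' s y * one' r x := by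
  simp only [one', tpf_mul]
  congr 1
  funext t
  by_cases h1 : t = r
  · subst h1
    simp [Function.update_of_ne h]
  · by_cases h2 : t = s
    · subst h2
      simp [Function.update_of_ne h1]
    · simp [Function.update_of_ne h1, Function.update_of_ne h2]

lemma one'_conj (r : Fin k) {g g' x : Matrix ι ι K} (h : g' * g = 1) :
    one' r (g * x * g') * tp k g = tp k g * one' r x := by
  rw [tp_eq_tpf, one', one', tpf_mul, tpf_mul]
  congr 1
  funext t
  by_cases h1 : t = r
  · subst h1
    simp only [Function.update_self]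
    rw [Matrix.mul_assoc, h, Matrix.mul_one]
  · simp [Function.update_of_ne h1]

lemma one'_sub (r : Fin k) (x y : Matrix ι ι K) : one' r (x - y) = one' r x - one' r y := by
  ext i s
  simp only [one', tpf, Matrix.of_apply, Matrix.sub_apply]
  rw [← Finset.mul_prod_erase _ _ (Finset.mem_univ r),
    ← Finset.mul_prod_erase _ _ (Finset.mem_univ r),
    ← Finset.mul_prod_erase _ _ (Finset.mem_univ r)]
  simp only [Function.update_self, Matrix.sub_apply]
  have h : ∀ z : Matrix ι ι K, ∏ t ∈ Finset.univ.erase r,
      (Function.update (fun _ => 1) r z : Fin k → Matrix ι ι K) t (i t) (s t) =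
      ∏ t ∈ Finset.univ.erase r, (1 : Matrix ι ι K) (i t) (s t) := by
    intro z
    refine Finset.prod_congr rfl fun t ht => ?_
    rw [Function.update_of_ne (Finset.ne_of_mem_erase ht)]
  rw [h, h, h]
  ring

lemma der_conj {g g' x : Matrix ι ι K} (h : g' * g = 1) (a : Ten K ι k) :
    der (g * x * g') ((tp k g).mulVec a) = (tp k g).mulVec (der x a) := by
  rw [← derM_mulVec, ← derM_mulVec, Matrix.mulVec_mulVec, Matrix.mulVec_mulVec]
  congr 1
  rw [derM, derM, Finset.sum_mul, Finset.mul_sum]
  exact Finset.sum_congr rfl fun r _ => one'_conj r h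

lemma der_bracket (x y : Matrix ι ι K) (a : Ten K ι k) :
    der (x * y - y * x) a = der x (der y a) - der y (der x a) := by
  rw [← derM_mulVec, ← derM_mulVec, ← derM_mulVec, ← derM_mulVec, ← derM_mulVec,
    Matrix.mulVec_mulVec, Matrix.mulVec_mulVec, ← Matrix.sub_mulVec]
  congr 1
  have h1 : derM k x * derM k y = ∑ r, ∑ s, one' r x * one' s y := by
    rw [derM, derM, Finset.sum_mul]
    exact Finset.sum_congr rfl fun r _ => Finset.mul_sum _ _ _
  have h2 : derM k y * derM k x = ∑ r, ∑ s, one' s y * one' r x := by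
    rw [derM, derM, Finset.sum_mul, Finset.sum_comm]
    exact Finset.sum_congr rfl fun r _ => Finset.mul_sum _ _ _
  rw [h1, h2, derM, ← Finset.sum_sub_distrib]
  refine Finset.sum_congr rfl fun r _ => ?_
  rw [← Finset.sum_sub_distrib, Finset.sum_eq_single r]
  · rw [one'_sub, one'_mul_same, one'_mul_same]
  · intro s _ hs
    rw [one'_comm hs.symm, sub_self]
  · intro h
    exact absurd (Finset.mem_univ _) h

/-- Matrices preserving the degrees preserve the degrees of tensors. -/
lemma tp_wt {wt : ι → ℕ} {g : Matrix ι ι K} (hg : Blk wt g) {n : ℕ} {a : Ten K ι k}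
    (ha : ∀ i, a i ≠ 0 → ∑ r, wt (i r) = n) (i : Fin k → ι) (hi : (tp k g).mulVec a i ≠ 0) :
    ∑ r, wt (i r) = n := by
  obtain ⟨s, _, hs⟩ := Finset.exists_ne_zero_of_sum_ne_zero hi
  have h1 : a s ≠ 0 := fun h => hs (by rw [h, mul_zero])
  rw [← ha s h1]
  refine Finset.sum_congr rfl fun r _ => ?_
  refine hg _ _ fun h => hs ?_
  have : tp k g i s = 0 := Finset.prod_eq_zero (Finset.mem_univ r) h
  change tp k g i s * a s = 0
  rw [this, zero_mul]

end Pool.Agent.H67FP
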