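import Pool.Agent.H67FP.Log
import Pool.Agent.H67FP.Tens

/-!
# The Lie algebra of the Galois side
-/

set_option autoImplicit false
set_option linter.unusedSectionVars false

open Matrix

namespace Pool.Agent.H67FP

noncomputable section

namespace Cohomology

variable {ℓ : ℕ} [Fact ℓ.Prime] {Γ ι : Type} [Group Γ] [Fintype ι] [DecidableEq ι]
  (D : Cohomology ℓ Γ ι)

lemma rho_mul (γ δ : Γ) : D.rho (γ * δ) = D.rho γ * D.rho δ := by
  have : D.rho (γ * δ) = ((D.ρ γ).1 * (D.ρ δ).1).map (PadicInt.Coe.ringHom (p := ℓ)) := by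
    rw [rho, map_mul]
    rfl
  rw [this, Matrix.map_mul]
  rfl

lemma rho_one : D.rho 1 = 1 := by
  have : D.rho 1 = (1 : Matrix ι ι ℤ_[ℓ]).map (PadicInt.Coe.ringHom (p := ℓ)) := by
    rw [rho, map_one]
    rfl
  rw [this, Matrix.map_one _ (map_zero _) (map_one _)]

lemma rho_inv_mul (γ : Γ) : D.rho γ⁻¹ * D.rho γ = 1 := by
  rw [← rho_mul, inv_mul_cancel, rho_one]

lemma rho_mul_inv (γ : Γ) : D.rho γ * D.rho γ⁻¹ = 1 := by
  rw [← rho_mul, mul_inv_cancel, rho_one]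

lemma rho_pow (γ : Γ) (n : ℕ) : D.rho (γ ^ n) = D.rho γ ^ n := by
  induction n with
  | zero => simp [rho_one]
  | succ n ih => rw [pow_succ, rho_mul, ih, pow_succ]

lemma chi_mul (γ δ : Γ) : D.chi (γ * δ) = D.chi γ * D.chi δ := by
  simp [chi, map_mul]

lemma chi_one : D.chi 1 = 1 := by
  simp [chi]

lemma chi_pow (γ : Γ) (n : ℕ) : D.chi (γ ^ n) = D.chi γ ^ n := by
  induction n with
  | zero => simp [chi_one]
  | succ n ih => rw [pow_succ, chi_mul, ih, pow_succ]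

lemma chi_inv_mul (γ : Γ) : D.chi γ⁻¹ * D.chi γ = 1 := by
  rw [← chi_mul, inv_mul_cancel, chi_one]

lemma chi_ne_zero (γ : Γ) : D.chi γ ≠ 0 := right_ne_zero_of_mul_eq_one (D.chi_inv_mul γ)

lemma rho_blk (γ : Γ) : Blk D.wt (D.rho γ) := by
  intro i s h
  refine D.wt_ρ γ i s fun h' => h ?_
  rw [rho, Matrix.map_apply, h', PadicInt.coe_zero]

/-- The subgroup of the elements congruent to one modulo `ℓ ^ 2`. -/
def nearSubgroup : Subgroup Γ :=
  ((Units.map ((PadicInt.toZModPow (p := ℓ) 2).mapMatrix (m := ι)).toMonoidHom).comp D.ρ).ker ⊓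
    ((Units.map (PadicInt.toZModPow (p := ℓ) 2).toMonoidHom).comp D.χ).ker

instance : (D.nearSubgroup).FiniteIndex := by
  have : NeZero (ℓ ^ 2) := ⟨pow_ne_zero _ (Fact.out : ℓ.Prime).ne_zero⟩
  unfold nearSubgroup
  infer_instance

lemma norm_le_of_toZModPow {z : ℤ_[ℓ]} (h : PadicInt.toZModPow 2 z = 0) :
    ‖(z : ℚ_[ℓ])‖ ≤ ((ℓ : ℝ)⁻¹) ^ 2 := by
  have h1 : z ∈ RingHom.ker (PadicInt.toZModPow (p := ℓ) 2) := h
  rw [PadicInt.ker_toZModPow, ← PadicInt.norm_le_pow_iff_mem_span_pow] at h1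
  rw [← PadicInt.norm_def]
  refine h1.trans (le_of_eq ?_)
  rw [_root_.zpow_neg, inv_pow]
  norm_cast

lemma near_rho {γ : Γ} (hγ : γ ∈ D.nearSubgroup) : Near (D.rho γ) := by
  intro i s
  have h1 : (D.rho γ - 1) i s = (((D.ρ γ).1 - 1) i s : ℤ_[ℓ]) := by
    rw [Matrix.sub_apply, Matrix.sub_apply, PadicInt.coe_sub]
    congr 1
    rw [Matrix.one_apply, Matrix.one_apply]
    split_ifs <;> simp
  rw [h1]
  apply norm_le_of_toZModPow
  have h2 := (Subgroup.mem_inf.mp hγ).1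
  rw [MonoidHom.mem_ker] at h2
  have h3 := congrArg (fun u : (Matrix ι ι (ZMod (ℓ ^ 2)))ˣ => (u : Matrix ι ι (ZMod (ℓ ^ 2))) i s)
    h2
  simp only [MonoidHom.comp_apply, Units.coe_map, Units.val_one] at h3
  have h4 : PadicInt.toZModPow 2 ((D.ρ γ).1 i s) = (1 : Matrix ι ι (ZMod (ℓ ^ 2))) i s := h3
  rw [Matrix.sub_apply, map_sub, h4, sub_eq_zero, Matrix.one_apply, Matrix.one_apply]
  split_ifs <;> simp

lemma near_chi {γ : Γ} (hγ : γ ∈ D.nearSubgroup) : ‖D.chi γ - 1‖ ≤ ((ℓ : ℝ)⁻¹) ^ 2 := by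
  have h1 : D.chi γ - 1 = (((D.χ γ : ℤ_[ℓ]) - 1 : ℤ_[ℓ]) : ℚ_[ℓ]) := by
    rw [PadicInt.coe_sub, PadicInt.coe_one]
    rfl
  rw [h1]
  apply norm_le_of_toZModPow
  have h2 := (Subgroup.mem_inf.mp hγ).2
  rw [MonoidHom.mem_ker] at h2
  have h3 := congrArg (fun u : (ZMod (ℓ ^ 2))ˣ => (u : ZMod (ℓ ^ 2))) h2
  have h4 : PadicInt.toZModPow 2 (D.χ γ : ℤ_[ℓ]) = 1 := h3
  rw [map_sub, h4, map_one, sub_self]

/-- The Lie algebra of the matrices which kill all Tate classes. -/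
def gal : Submodule ℚ_[ℓ] (Matrix ι ι ℚ_[ℓ]) where
  carrier := {x | ∀ (j k : ℕ) (a : Ten ℚ_[ℓ] ι k), D.IsTate j k a → der x a = 0}
  add_mem' := by
    intro x y hx hy j k a ha
    rw [← derL_apply, map_add, LinearMap.add_apply, derL_apply, derL_apply, hx j k a ha,
      hy j k a ha, add_zero]
  zero_mem' := by
    intro j k a _
    rw [← derL_apply, map_zero]
    rfl
  smul_mem' := by
    intro c x hx j k a ha
    rw [← derL_apply, map_smul, LinearMap.smul_apply, derL_apply, hx j k a ha, smul_zero]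

/-- Tensors killed by the Lie algebra of the Galois side are Tate classes. -/
lemma isTate_of_killed {j k : ℕ} {a : Ten ℚ_[ℓ] ι k}
    (ha : ∀ i, a i ≠ 0 → ∑ r, D.wt (i r) = 2 * j) (h : ∀ x ∈ D.gal, der x a = 0) :
    D.IsTate j k a := by
  refine ⟨ha, D.nearSubgroup, inferInstance, fun γ hγ => ?_⟩
  obtain ⟨x, hx1, hx2⟩ := exists_log D.wt (D.near_rho hγ) (fun i s => PadicInt.norm_le_one _)
    (D.near_chi hγ) (PadicInt.norm_le_one _)
  rw [← Matrix.smul_mulVec]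
  refine hx2 j k a ha (h x ?_)
  intro j' k' a' ha'
  obtain ⟨hw, Γ', hfin, hfix⟩ := ha'
  obtain ⟨n, hn0, _, hn⟩ := Subgroup.exists_pow_mem_of_index_ne_zero hfin.index_ne_zero γ
  refine hx1 j' k' a' hw n hn0.ne' ?_
  have h1 := hfix _ hn
  rw [rho_pow, chi_pow] at h1
  rw [smul_pow, ← tp_pow, Matrix.smul_mulVec]
  refine Eq.trans ?_ h1
  congr 1
  rw [← pow_mul, ← pow_mul, mul_comm]

lemma tateSpan_wt {j k : ℕ} {a : Ten ℚ_[ℓ] ι k} (ha : a ∈ D.tateSpan j k) (i : Fin k → ι)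
    (hi : a i ≠ 0) : ∑ r, D.wt (i r) = 2 * j := by
  revert i
  refine Submodule.span_induction ?_ ?_ ?_ ?_ ha
  · intro b hb
    exact hb.1
  · intro i hi
    exact absurd rfl hi
  · intro b c _ _ hb hc i hi
    by_cases h : b i = 0
    · refine hc i fun h' => hi ?_
      rw [Pi.add_apply, h, h', add_zero]
    · exact hb i h
  · intro q b _ hb i hi
    exact hb i fun h => hi (by rw [Pi.smul_apply, h, smul_zero])

lemma killed_of_tateSpan {x : Matrix ι ι ℚ_[ℓ]} (hx : x ∈ D.gal) {j k : ℕ}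
    {a : Ten ℚ_[ℓ] ι k} (ha : a ∈ D.tateSpan j k) : der x a = 0 := by
  refine Submodule.span_induction (p := fun a _ => der x a = 0) ?_ ?_ ?_ ?_ ha
  · intro b hb
    exact hx j k b hb
  · rw [← derL_apply, map_zero]
  · intro b c _ _ hb hc
    rw [← derL_apply, map_add, derL_apply, derL_apply, hb, hc, add_zero]
  · intro q b _ hb
    rw [← derL_apply, map_smul, derL_apply, hb, smul_zero]

lemma wtM_Δ (K : Type) [Field K] [CharZero K] :
    wtM K D.wt * ext K D.Δ + ext K D.Δ * wtM K D.wt = (2 * D.d : K) • ext K D.Δ := by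
  ext i s
  rw [Matrix.add_apply, wtM, Matrix.diagonal_mul, Matrix.mul_diagonal, Matrix.smul_apply,
    smul_eq_mul]
  by_cases h : D.Δ i s = 0
  · simp [ext, h]
  · have := D.wt_Δ i s h
    have h2 : (D.wt i : K) + D.wt s = 2 * D.d := by exact_mod_cast this
    rw [← h2]
    ring

lemma wt_of_Δ (K : Type) [Field K] [CharZero K] {i s : ι} (h : ext K D.Δ i s ≠ 0) :
    D.wt i + D.wt s = 2 * D.d := by
  refine D.wt_Δ i s fun h' => h ?_
  simp [ext, h']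

lemma rho_Δ (γ : Γ) : D.rho γ * ext ℚ_[ℓ] D.Δ * (D.rho γ)ᵀ =
    (D.chi γ ^ D.d)⁻¹ • ext ℚ_[ℓ] D.Δ := by
  have h := D.ρ_Δ γ
  have h1 : D.chi γ ^ D.d ≠ 0 := pow_ne_zero _ (D.chi_ne_zero γ)
  have h2 : (D.chi γ ^ D.d) • (D.rho γ * ext ℚ_[ℓ] D.Δ * (D.rho γ)ᵀ) = ext ℚ_[ℓ] D.Δ := h
  rw [← h2, smul_smul, inv_mul_cancel₀ h1, one_smul, h2]

lemma sum_wt_two (i : Fin 2 → ι) : ∑ r, D.wt (i r) = D.wt (i 0) + D.wt (i 1) := by
  rw [Fin.sum_univ_two]

lemma isTate_Δ : D.IsTate D.d 2 (ofMat (ext ℚ_[ℓ] D.Δ)) := by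
  refine ⟨fun i hi => ?_, ⊤, inferInstance, fun γ _ => ?_⟩
  · rw [sum_wt_two]
    exact D.wt_of_Δ ℚ_[ℓ] hi
  · rw [tp_ofMat, rho_Δ]
    have h1 : D.chi γ ^ D.d ≠ 0 := pow_ne_zero _ (D.chi_ne_zero γ)
    funext i
    simp only [ofMat, Pi.smul_apply, Matrix.smul_apply, smul_eq_mul]
    rw [← mul_assoc, mul_inv_cancel₀ h1, one_mul]

lemma isTate_WΔ : D.IsTate D.d 2 (ofMat (wtM ℚ_[ℓ] D.wt * ext ℚ_[ℓ] D.Δ)) := by
  refine ⟨fun i hi => ?_, ⊤, inferInstance, fun γ _ => ?_⟩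
  · rw [sum_wt_two]
    refine D.wt_of_Δ ℚ_[ℓ] fun h => hi ?_
    rw [ofMat, wtM, Matrix.diagonal_mul, h, mul_zero]
  · rw [tp_ofMat, ← Matrix.mul_assoc, ← blk_iff.mp (D.rho_blk γ), Matrix.mul_assoc (wtM _ _),
      Matrix.mul_assoc (wtM _ _), rho_Δ]
    have h1 : D.chi γ ^ D.d ≠ 0 := pow_ne_zero _ (D.chi_ne_zero γ)
    funext i
    simp only [ofMat, Pi.smul_apply, Matrix.mul_smul, Matrix.smul_apply, smul_eq_mul]
    rw [← mul_assoc, mul_inv_cancel₀ h1, one_mul]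

/-- `Δ` is invertible. -/
lemma Δ_inv (K : Type) [Field K] [CharZero K] : ext K D.Δ * ext K D.Δ⁻¹ = 1 := by
  have h1 : D.Δ * D.Δ⁻¹ = 1 := Matrix.mul_nonsing_inv _ (isUnit_iff_ne_zero.mpr D.det_Δ)
  have h2 : ext K (D.Δ * D.Δ⁻¹) = ext K D.Δ * ext K D.Δ⁻¹ :=
    Matrix.map_mul (f := Rat.castHom K)
  rw [← h2, h1]
  exact Matrix.map_one _ Rat.cast_zero Rat.cast_one

/-- Matrices killing `Δ` and `W Δ` preserve the degrees. -/
lemma blk_of_killed {K : Type} [Field K] [CharZero K] {x : Matrix ι ι K}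
    (h1 : x * ext K D.Δ + ext K D.Δ * xᵀ = 0)
    (h2 : x * (wtM K D.wt * ext K D.Δ) + wtM K D.wt * ext K D.Δ * xᵀ = 0) : Blk D.wt x := by
  rw [blk_iff]
  have h3 : ext K D.Δ * xᵀ = -(x * ext K D.Δ) := by
    rw [eq_neg_iff_add_eq_zero, add_comm]
    exact h1
  rw [Matrix.mul_assoc (wtM K D.wt), h3, Matrix.mul_neg, ← sub_eq_add_neg, sub_eq_zero,
    ← Matrix.mul_assoc, ← Matrix.mul_assoc] at h2
  have h4 := congrArg (· * ext K D.Δ⁻¹) h2
  simp only [Matrix.mul_assoc, D.Δ_inv K, Matrix.mul_one] at h4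
  exact h4.symm

lemma gal_Δ {x : Matrix ι ι ℚ_[ℓ]} (hx : x ∈ D.gal) :
    x * ext ℚ_[ℓ] D.Δ + ext ℚ_[ℓ] D.Δ * xᵀ = 0 := by
  have := hx _ _ _ D.isTate_Δ
  rw [der_ofMat] at this
  exact ofMat_inj this

lemma gal_blk {x : Matrix ι ι ℚ_[ℓ]} (hx : x ∈ D.gal) : Blk D.wt x := by
  refine D.blk_of_killed (D.gal_Δ hx) ?_
  have := hx _ _ _ D.isTate_WΔ
  rw [der_ofMat] at this
  exact ofMat_inj this

/-- The Lie algebra of the Galois side is stable under conjugation by the Galois group. -/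
lemma gal_conj (γ : Γ) {x : Matrix ι ι ℚ_[ℓ]} (hx : x ∈ D.gal) :
    D.rho γ * x * D.rho γ⁻¹ ∈ D.gal := by
  intro j k a ha
  obtain ⟨hw, Γ', hfin, hfix⟩ := ha
  have h1 : D.IsTate j k ((tp k (D.rho γ⁻¹)).mulVec a) := by
    refine ⟨tp_wt (D.rho_blk _) hw, Γ'.normalCore, inferInstance, fun σ hσ => ?_⟩
    have hσ' : γ * σ * γ⁻¹ ∈ Γ' :=
      Γ'.normalCore_le ((Subgroup.normalCore_normal Γ').conj_mem σ hσ γ)
    have h2 := hfix _ hσ'
    have h3 : D.chi (γ * σ * γ⁻¹) = D.chi σ := by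
      rw [chi_mul, chi_mul]
      have := D.chi_inv_mul γ
      linear_combination D.chi σ * this
    rw [h3] at h2
    conv_rhs => rw [← h2]
    rw [Matrix.mulVec_smul, Matrix.mulVec_mulVec, Matrix.mulVec_mulVec, ← tp_mul, ← tp_mul,
      ← rho_mul, ← rho_mul]
    congr 4
    group
  have h4 := hx j k _ h1
  have h5 : a = (tp k (D.rho γ)).mulVec ((tp k (D.rho γ⁻¹)).mulVec a) := by
    rw [Matrix.mulVec_mulVec, ← tp_mul, rho_mul_inv, tp_one, Matrix.one_mulVec]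
  rw [h5, der_conj (D.rho_inv_mul γ), h4, Matrix.mulVec_zero]

/-- `f` commutes with the bracket with the elements of `S`. -/
def Adj {K ι : Type} [CommRing K] [Fintype ι] [DecidableEq ι] (S : Set (Matrix ι ι K))
    (f : Matrix ι ι K →ₗ[K] Matrix ι ι K) : Prop :=
  ∀ x ∈ S, ∀ y, x * f y - f y * x = f (x * y - y * x)

/-- The tensor of degree four of a linear map which preserves the degrees. -/
lemma ofF_wt {K : Type} [Field K] [CharZero K] {f : Matrix ι ι K →ₗ[K] Matrix ι ι K}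
    (hf : Adj {wtM K D.wt} f) (i : Fin 4 → ι) (hi : ofF (ext K D.Δ) f i ≠ 0) :
    ∑ r, D.wt (i r) = 2 * (2 * D.d) := by
  set x : Matrix ι ι K := Matrix.diagonal fun i => (D.wt i : K) - D.d with hx
  have hx1 : x = wtM K D.wt - (D.d : K) • 1 := by
    ext i s
    rw [hx, wtM, Matrix.sub_apply, Matrix.smul_apply]
    by_cases h : i = s
    · subst h
      simp
    · simp [h]
  have hxT : xᵀ = x := by rw [hx, Matrix.diagonal_transpose]
  have h1 : x * ext K D.Δ + ext K D.Δ * xᵀ = 0 := by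
    rw [hxT, hx1, Matrix.sub_mul, Matrix.mul_sub]
    have := D.wtM_Δ K
    have h2 : wtM K D.wt * ext K D.Δ - (D.d : K) • (1 : Matrix ι ι K) * ext K D.Δ +
        (ext K D.Δ * wtM K D.wt - ext K D.Δ * (D.d : K) • (1 : Matrix ι ι K)) =
        (wtM K D.wt * ext K D.Δ + ext K D.Δ * wtM K D.wt) - (2 * D.d : K) • ext K D.Δ := by
      rw [Matrix.smul_mul, Matrix.one_mul, Matrix.mul_smul, Matrix.mul_one, two_mul, add_smul]
      abel
    rw [h2, this, sub_self]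
  have h3 : der x (ofF (ext K D.Δ) f) = 0 := by
    rw [ofF_killed_iff (D.Δ_inv K) f h1]
    intro y
    have h4 := hf (wtM K D.wt) rfl y
    rw [hx1]
    have h5 : ∀ z : Matrix ι ι K, (wtM K D.wt - (D.d : K) • 1) * z -
        z * (wtM K D.wt - (D.d : K) • 1) = wtM K D.wt * z - z * wtM K D.wt := by
      intro z
      rw [Matrix.sub_mul, Matrix.mul_sub, Matrix.smul_mul, Matrix.one_mul, Matrix.mul_smul,
        Matrix.mul_one]
      abel
    rw [h5, h5, h4]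
  have h6 := congrFun h3 i
  rw [hx, der_diagonal] at h6
  have h7 : ∑ r : Fin 4, ((D.wt (i r) : K) - D.d) = 0 := by
    rcases mul_eq_zero.mp h6 with h | h
    · exact h
    · exact absurd h hi
  rw [Finset.sum_sub_distrib, Finset.sum_const, Finset.card_univ, Fintype.card_fin,
    sub_eq_zero] at h7
  have h8 : ((∑ r : Fin 4, D.wt (i r) : ℕ) : K) = ((2 * (2 * D.d) : ℕ) : K) := by
    push_cast
    rw [h7]
    simp only [nsmul_eq_mul]
    push_cast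
    ring
  exact_mod_cast h8

/-- An equivariant projection to the Lie algebra of the Galois side. -/
lemma exists_proj (hss : D.GaloisSemisimple) : ∃ f : Matrix ι ι ℚ_[ℓ] →ₗ[ℚ_[ℓ]] Matrix ι ι ℚ_[ℓ],
    (∀ y, f y ∈ D.gal) ∧ (∀ x ∈ D.gal, f x = x) ∧ Adj {wtM ℚ_[ℓ] D.wt} f ∧
    Adj (D.gal : Set (Matrix ι ι ℚ_[ℓ])) f := by
  obtain ⟨W', hW', hc⟩ := hss D.gal fun γ y hy => D.gal_conj γ hy
  set π : Matrix ι ι ℚ_[ℓ] →ₗ[ℚ_[ℓ]] Matrix ι ι ℚ_[ℓ] :=
    D.gal.subtype ∘ₗ Submodule.projectionOnto D.gal W' hc with hπ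
  have hπ1 : ∀ y, π y ∈ D.gal := fun y => (Submodule.projectionOnto D.gal W' hc y).2
  have hπ2 : ∀ y ∈ D.gal, π y = y := fun y hy => by
    have := Submodule.projectionOnto_apply_left hc ⟨y, hy⟩
    simp only at this
    rw [hπ, LinearMap.comp_apply, this]
    rfl
  have hπ3 : ∀ y ∈ W', π y = 0 := fun y hy => by
    have := Submodule.projectionOnto_apply_right hc ⟨y, hy⟩
    simp only at this
    rw [hπ, LinearMap.comp_apply, this, map_zero]
  have hπ4 : ∀ γ y, π (D.rho γ * y * D.rho γ⁻¹) = D.rho γ * π y * D.rho γ⁻¹ := by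
    intro γ y
    obtain ⟨u, hu, v, hv, rfl⟩ : ∃ u ∈ D.gal, ∃ v ∈ W', u + v = y := by
      have : y ∈ D.gal ⊔ W' := by rw [hc.sup_eq_top]; trivial
      obtain ⟨u, hu, v, hv, h⟩ := Submodule.mem_sup.mp this
      exact ⟨u, hu, v, hv, h⟩
    rw [Matrix.mul_add, Matrix.add_mul, map_add, map_add, hπ2 _ (D.gal_conj γ hu),
      hπ3 _ (hW' γ v hv), hπ2 u hu, hπ3 v hv, add_zero, add_zero]
  set f := π ∘ₗ mask D.wt with hf
  have hf1 : ∀ y, f y ∈ D.gal := fun y => hπ1 _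
  have hf2 : ∀ x ∈ D.gal, f x = x := fun x hx => by
    rw [hf, LinearMap.comp_apply, mask_of_blk (D.gal_blk hx), hπ2 x hx]
  have hf3 : Adj {wtM ℚ_[ℓ] D.wt} f := by
    rintro _ rfl y
    have hW : Blk D.wt (wtM ℚ_[ℓ] D.wt) := by
      rw [blk_iff]
    have h1 : wtM ℚ_[ℓ] D.wt * f y = f y * wtM ℚ_[ℓ] D.wt := blk_iff.mp (D.gal_blk (hf1 y))
    have h2 : mask D.wt (wtM ℚ_[ℓ] D.wt * y - y * wtM ℚ_[ℓ] D.wt) = 0 := by
      rw [map_sub, mask_mul_left hW, mask_mul_right hW, blk_iff.mp (mask_blk _ _), sub_self]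
    rw [h1, sub_self, hf, LinearMap.comp_apply, h2, map_zero]
  have hf4 : ∀ γ y, f (D.rho γ * y * D.rho γ⁻¹) = D.rho γ * f y * D.rho γ⁻¹ := by
    intro γ y
    rw [hf, LinearMap.comp_apply, mask_mul_right (D.rho_blk _), mask_mul_left (D.rho_blk _), hπ4]
    rfl
  refine ⟨f, hf1, hf2, hf3, ?_⟩
  have hT : D.IsTate (2 * D.d) 4 (ofF (ext ℚ_[ℓ] D.Δ) f) := by
    refine ⟨D.ofF_wt hf3, ⊤, inferInstance, fun γ _ => ?_⟩
    rw [tp_ofF f (D.rho_Δ γ) (D.rho_mul_inv γ) (D.rho_inv_mul γ) (fun y => ?_), smul_smul]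
    · have h1 : D.chi γ ^ D.d ≠ 0 := pow_ne_zero _ (D.chi_ne_zero γ)
      have : D.chi γ ^ (2 * D.d) * ((D.chi γ ^ D.d)⁻¹) ^ 2 = 1 := by
        rw [mul_comm 2, pow_mul, ← mul_pow, mul_inv_cancel₀ h1, one_pow]
      rw [this, one_smul]
    · have := hf4 γ⁻¹ y
      rwa [inv_inv] at this
  intro x hx y
  exact (ofF_killed_iff (D.Δ_inv ℚ_[ℓ]) f (D.gal_Δ hx)).mp (hx _ _ _ hT) y

end Cohomology

end

end Pool.Agent.H67FP
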