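import Pool.Agent.H67FP.Gal

/-!
# The Lie algebra of the Hodge side
-/

set_option autoImplicit false
set_option linter.unusedSectionVars false

open Matrix

namespace Pool.Agent.H67FP

noncomputable section

section cast

variable {K : Type} [Field K] [CharZero K] {ι : Type} [Fintype ι] [DecidableEq ι] {k : ℕ}

lemma ext_mul (M N : Matrix ι ι ℚ) : ext K (M * N) = ext K M * ext K N :=
  Matrix.map_mul (f := Rat.castHom K)

lemma ext_add (M N : Matrix ι ι ℚ) : ext K (M + N) = ext K M + ext K N := by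
  ext i j
  simp [ext]

lemma ext_sub (M N : Matrix ι ι ℚ) : ext K (M - N) = ext K M - ext K N := by
  ext i j
  simp [ext]

lemma ext_smul (q : ℚ) (M : Matrix ι ι ℚ) : ext K (q • M) = (q : K) • ext K M := by
  ext i j
  simp [ext]

lemma ext_zero : ext K (0 : Matrix ι ι ℚ) = 0 := by
  ext i j
  simp [ext]

lemma ext_one : ext K (1 : Matrix ι ι ℚ) = 1 := Matrix.map_one _ Rat.cast_zero Rat.cast_one

lemma ext_transpose (M : Matrix ι ι ℚ) : ext K Mᵀ = (ext K M)ᵀ := rfl

lemma ext_inj {M N : Matrix ι ι ℚ} (h : ext K M = ext K N) : M = N := by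
  ext i j
  have := congrFun (congrFun h i) j
  simpa [ext] using this

lemma ext_sum {α : Type} (S : Finset α) (M : α → Matrix ι ι ℚ) :
    ext K (∑ t ∈ S, M t) = ∑ t ∈ S, ext K (M t) := by
  ext i j
  simp [ext, Matrix.sum_apply]

lemma ext_single (a b : ι) : ext K (Matrix.single a b (1 : ℚ)) = Matrix.single a b 1 := by
  ext i j
  simp only [ext, Matrix.map_apply, Matrix.single_apply]
  split_ifs <;> simp

lemma ext_wtM (wt : ι → ℕ) : ext K (wtM ℚ wt) = wtM K wt := by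
  ext i j
  simp only [ext, wtM, Matrix.map_apply, Matrix.diagonal_apply]
  split_ifs <;> simp

lemma ext_mask (wt : ι → ℕ) (y : Matrix ι ι ℚ) : ext K (mask wt y) = mask wt (ext K y) := by
  ext i j
  simp only [ext, Matrix.map_apply, mask_apply]
  split_ifs <;> simp

lemma der_extT (x : Matrix ι ι ℚ) (a : Ten ℚ ι k) :
    der (ext K x) (extT K a) = extT K (der x a) := by
  funext i
  simp [der, extT, ext]

lemma extT_ofMat (M : Matrix ι ι ℚ) : extT K (ofMat M) = ofMat (ext K M) := rfl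

lemma blk_ext {wt : ι → ℕ} {M : Matrix ι ι ℚ} (h : Blk wt M) : Blk wt (ext K M) := by
  intro i s hi
  refine h i s fun h' => hi ?_
  simp [ext, h']

/-- Extension of scalars of a linear map between spaces of matrices. -/
def extF (K : Type) [Field K] [CharZero K] (f : Matrix ι ι ℚ →ₗ[ℚ] Matrix ι ι ℚ) :
    Matrix ι ι K →ₗ[K] Matrix ι ι K where
  toFun y := ∑ a, ∑ b, y a b • ext K (f (Matrix.single a b 1))
  map_add' x y := by
    simp only [Matrix.add_apply, add_smul, Finset.sum_add_distrib]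
  map_smul' c y := by
    simp only [Matrix.smul_apply, smul_eq_mul, mul_smul, Finset.smul_sum, RingHom.id_apply]

lemma extF_ext (f : Matrix ι ι ℚ →ₗ[ℚ] Matrix ι ι ℚ) (y : Matrix ι ι ℚ) :
    extF K f (ext K y) = ext K (f y) := by
  have h1 : f y = ∑ a, ∑ b, y a b • f (Matrix.single a b 1) := by
    conv_lhs => rw [Matrix.matrix_eq_sum_single y]
    simp only [map_sum]
    refine Finset.sum_congr rfl fun a _ => Finset.sum_congr rfl fun b _ => ?_
    rw [← map_smul, Matrix.smul_single, smul_eq_mul, mul_one]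
  rw [h1]
  simp only [ext_sum, ext_smul]
  rfl

lemma lin_ext_eq {F G : Matrix ι ι K →ₗ[K] Matrix ι ι K}
    (h : ∀ y : Matrix ι ι ℚ, F (ext K y) = G (ext K y)) (y : Matrix ι ι K) : F y = G y := by
  rw [Matrix.matrix_eq_sum_single y]
  simp only [map_sum]
  refine Finset.sum_congr rfl fun a _ => Finset.sum_congr rfl fun b _ => ?_
  have h1 : Matrix.single a b (y a b) = y a b • ext K (Matrix.single a b 1) := by
    rw [ext_single, Matrix.smul_single, smul_eq_mul, mul_one]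
  rw [h1, map_smul, map_smul, h]

lemma extT_ofF (Δ : Matrix ι ι ℚ) (f : Matrix ι ι ℚ →ₗ[ℚ] Matrix ι ι ℚ) :
    extT K (ofF Δ f) = ofF (ext K Δ) (extF K f) := by
  funext i
  have h1 : ofF (ext K Δ) (extF K f) i =
      (extF K f (ext K Δ * Matrix.single (i 2) (i 3) 1) * ext K Δ) (i 0) (i 1) := rfl
  rw [h1, ← ext_single, ← ext_mul, extF_ext, ← ext_mul]
  rfl

end cast

namespace Cohomology

variable {ℓ : ℕ} [Fact ℓ.Prime] {Γ ι : Type} [Group Γ] [Fintype ι] [DecidableEq ι]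
  (D : Cohomology ℓ Γ ι)

/-- The rational matrices which kill all Hodge classes. -/
def mtQ : Submodule ℚ (Matrix ι ι ℚ) where
  carrier := {x | ∀ (j k : ℕ) (a : Ten ℚ ι k), D.IsHodge j k a → der x a = 0}
  add_mem' := by
    intro x y hx hy j k a ha
    rw [← derL_apply, map_add, LinearMap.add_apply, derL_apply, derL_apply, hx j k a ha,
      hy j k a ha, add_zero]
  zero_mem' := by
    intro j k a _
    rw [← derL_apply, map_zero]
    rfl
  smul_mem' := by
    intro c x hx j k a ha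
    rw [← derL_apply, map_smul, LinearMap.smul_apply, derL_apply, hx j k a ha, smul_zero]

/-- The matrices which kill all Hodge classes. -/
def mt (K : Type) [Field K] [CharZero K] : Submodule K (Matrix ι ι K) where
  carrier := {x | ∀ (j k : ℕ) (a : Ten ℚ ι k), D.IsHodge j k a → der x (extT K a) = 0}
  add_mem' := by
    intro x y hx hy j k a ha
    rw [← derL_apply, map_add, LinearMap.add_apply, derL_apply, derL_apply, hx j k a ha,
      hy j k a ha, add_zero]
  zero_mem' := by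
    intro j k a _
    rw [← derL_apply, map_zero]
    rfl
  smul_mem' := by
    intro c x hx j k a ha
    rw [← derL_apply, map_smul, LinearMap.smul_apply, derL_apply, hx j k a ha, smul_zero]

variable {K : Type} [Field K] [CharZero K]

lemma ext_mem_mt {x : Matrix ι ι ℚ} (hx : x ∈ D.mtQ) : ext K x ∈ D.mt K := by
  intro j k a ha
  rw [der_extT, hx j k a ha]
  funext i
  simp [extT]

lemma der_sum_ext {r : ℕ} (b : Fin r → K) (c : Fin r → Matrix ι ι ℚ) {k : ℕ} (a : Ten ℚ ι k) :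
    der (∑ m, b m • ext K (c m)) (extT K a) = ∑ m, b m • extT K (der (c m) a) := by
  rw [← derL_apply, map_sum, LinearMap.sum_apply]
  refine Finset.sum_congr rfl fun m _ => ?_
  rw [map_smul, LinearMap.smul_apply, derL_apply, der_extT]

lemma mt_decomp {x : Matrix ι ι K} (hx : x ∈ D.mt K) :
    ∃ (r : ℕ) (b : Fin r → K) (c : Fin r → Matrix ι ι ℚ), (∀ m, c m ∈ D.mtQ) ∧
      x = ∑ m, b m • ext K (c m) := by
  obtain ⟨r, b, c, hb, h⟩ := decompM x
  refine ⟨r, b, c, fun m j k a ha => ?_, h⟩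
  have h1 := hx j k a ha
  rw [h, der_sum_ext] at h1
  exact coeffT_zero hb _ h1 m

lemma H_mem : D.H ∈ D.mt ℂ := fun _ _ _ ha => ha.2

lemma H_blk : Blk D.wt D.H := D.wt_H

lemma isHodge_Δ : D.IsHodge D.d 2 (ofMat D.Δ) := by
  refine ⟨fun i hi => ?_, ?_⟩
  · rw [sum_wt_two]
    exact D.wt_Δ _ _ hi
  · rw [extT_ofMat, der_ofMat, D.H_Δ]
    rfl

lemma isHodge_WΔ : D.IsHodge D.d 2 (ofMat (wtM ℚ D.wt * D.Δ)) := by
  refine ⟨fun i hi => ?_, ?_⟩
  · rw [sum_wt_two]
    refine D.wt_Δ _ _ fun h => hi ?_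
    rw [ofMat, wtM, Matrix.diagonal_mul, h, mul_zero]
  · rw [extT_ofMat, der_ofMat, ext_mul, ext_wtM, ← Matrix.mul_assoc, ← blk_iff.mp D.H_blk,
      Matrix.mul_assoc, Matrix.mul_assoc, ← Matrix.mul_add, D.H_Δ, Matrix.mul_zero]
    rfl

lemma mt_Δ {x : Matrix ι ι K} (hx : x ∈ D.mt K) : x * ext K D.Δ + ext K D.Δ * xᵀ = 0 := by
  have := hx _ _ _ D.isHodge_Δ
  rw [extT_ofMat, der_ofMat] at this
  exact ofMat_inj this

lemma mt_blk {x : Matrix ι ι K} (hx : x ∈ D.mt K) : Blk D.wt x := by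
  refine D.blk_of_killed (D.mt_Δ hx) ?_
  have := hx _ _ _ D.isHodge_WΔ
  rw [extT_ofMat, der_ofMat, ext_mul, ext_wtM] at this
  exact ofMat_inj this

lemma mtQ_blk {x : Matrix ι ι ℚ} (hx : x ∈ D.mtQ) : Blk D.wt x := by
  have h1 : ext ℚ x ∈ D.mt ℚ := D.ext_mem_mt hx
  have h2 := D.mt_blk h1
  intro i s h
  exact h2 i s (by simpa [ext] using h)

/-- Tensors killed by the Lie algebra of the Hodge side are combinations of Hodge classes. -/
lemma mem_hodge_of_killed {j k : ℕ} {a : Ten K ι k}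
    (ha : ∀ i, a i ≠ 0 → ∑ r, D.wt (i r) = 2 * j) (h : ∀ x ∈ D.mtQ, der (ext K x) a = 0) :
    a ∈ Submodule.span K {b | ∃ a', D.IsHodge j k a' ∧ b = extT K a'} := by
  obtain ⟨r, b, c, hb, hc⟩ := decompT a
  have hcH : ∀ m, D.IsHodge j k (c m) := by
    intro m
    refine ⟨fun i hi => ?_, ?_⟩
    · by_contra hne
      apply hi
      have h1 : a i = 0 := by
        by_contra h0
        exact hne (ha i h0)
      refine coeff_zero hb (fun m => c m i) ?_ m
      rw [← h1, hc, Finset.sum_apply]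
      rfl
    · have h2 : ∀ x ∈ D.mtQ, der x (c m) = 0 := by
        intro x hx
        refine coeffT_zero hb (fun m => der x (c m)) ?_ m
        have h3 := h x hx
        rw [hc, ← derL_apply, map_sum] at h3
        rw [← h3]
        refine Finset.sum_congr rfl fun m _ => ?_
        rw [map_smul, derL_apply, der_extT]
      obtain ⟨r', b', c', hc', hH⟩ := D.mt_decomp D.H_mem
      rw [hH, der_sum_ext]
      refine Finset.sum_eq_zero fun t _ => ?_
      rw [h2 _ (hc' t)]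
      funext i
      simp [extT]
  rw [hc]
  exact Submodule.sum_mem _ fun m _ => Submodule.smul_mem _ _ (Submodule.subset_span ⟨_, hcH m, rfl⟩)

lemma hodgeSpan_wt {j k : ℕ} {a : Ten ℚ_[ℓ] ι k} (ha : a ∈ D.hodgeSpan j k) (i : Fin k → ι)
    (hi : a i ≠ 0) : ∑ r, D.wt (i r) = 2 * j := by
  revert i
  refine Submodule.span_induction ?_ ?_ ?_ ?_ ha
  · rintro _ ⟨b, hb, rfl⟩ i hi
    refine hb.1 i fun h => hi ?_
    simp [extT, h]
  · intro i hi
    exact absurd rfl hi
  · intro b c _ _ hb hc i hi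
    by_cases h : b i = 0
    · refine hc i fun h' => hi ?_
      rw [Pi.add_apply, h, h', add_zero]
    · exact hb i h
  · intro q b _ hb i hi
    exact hb i fun h => hi (by rw [Pi.smul_apply, h, smul_zero])

lemma killed_of_hodgeSpan {x : Matrix ι ι ℚ_[ℓ]} (hx : x ∈ D.mt ℚ_[ℓ]) {j k : ℕ}
    {a : Ten ℚ_[ℓ] ι k} (ha : a ∈ D.hodgeSpan j k) : der x a = 0 := by
  refine Submodule.span_induction (p := fun a _ => der x a = 0) ?_ ?_ ?_ ?_ ha
  · rintro _ ⟨b, hb, rfl⟩
    exact hx j k b hb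
  · rw [← derL_apply, map_zero]
  · intro b c _ _ hb hc
    rw [← derL_apply, map_add, derL_apply, derL_apply, hb, hc, add_zero]
  · intro q b _ hb
    rw [← derL_apply, map_smul, derL_apply, hb, smul_zero]

lemma mtQ_bracket {x y : Matrix ι ι ℚ} (hx : x ∈ D.mtQ) (hy : y ∈ D.mtQ) :
    x * y - y * x ∈ D.mtQ := by
  intro j k a ha
  rw [der_bracket, hx j k a ha, hy j k a ha, ← derL_apply, ← derL_apply, map_zero, map_zero,
    sub_zero]

lemma isSubHodge_mtQ : D.IsSubHodge D.mtQ := by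
  intro y hy
  obtain ⟨r, b, c, hc, hH⟩ := D.mt_decomp D.H_mem
  have h1 : D.H * ext ℂ y - ext ℂ y * D.H = ∑ m, b m • ext ℂ (c m * y - y * c m) := by
    rw [hH, Matrix.sum_mul, Matrix.mul_sum, ← Finset.sum_sub_distrib]
    refine Finset.sum_congr rfl fun m _ => ?_
    rw [Matrix.smul_mul, Matrix.mul_smul, ← smul_sub, ← ext_mul, ← ext_mul, ← ext_sub]
  rw [h1]
  exact Submodule.sum_mem _ fun m _ => Submodule.smul_mem _ _
    (Submodule.subset_span ⟨_, D.mtQ_bracket (hc m) hy, rfl⟩)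

/-- An equivariant projection to the Lie algebra of the Hodge side. -/
lemma exists_projM (hss : D.HodgeSemisimple) :
    ∃ f : Matrix ι ι ℚ_[ℓ] →ₗ[ℚ_[ℓ]] Matrix ι ι ℚ_[ℓ],
    (∀ y, f y ∈ D.mt ℚ_[ℓ]) ∧ (∀ x ∈ D.mt ℚ_[ℓ], f x = x) ∧ Adj {wtM ℚ_[ℓ] D.wt} f ∧
    Adj (D.mt ℚ_[ℓ] : Set (Matrix ι ι ℚ_[ℓ])) f := by
  obtain ⟨W', hW', hc⟩ := hss D.mtQ D.isSubHodge_mtQ
  set π : Matrix ι ι ℚ →ₗ[ℚ] Matrix ι ι ℚ :=
    D.mtQ.subtype ∘ₗ Submodule.projectionOnto D.mtQ W' hc with hπ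
  have hπ1 : ∀ y, π y ∈ D.mtQ := fun y => (Submodule.projectionOnto D.mtQ W' hc y).2
  have hπ2 : ∀ y ∈ D.mtQ, π y = y := fun y hy => by
    have := Submodule.projectionOnto_apply_left hc ⟨y, hy⟩
    simp only at this
    rw [hπ, LinearMap.comp_apply, this]
    rfl
  have hπ3 : ∀ y ∈ W', π y = 0 := fun y hy => by
    have := Submodule.projectionOnto_apply_right hc ⟨y, hy⟩
    simp only at this
    rw [hπ, LinearMap.comp_apply, this, map_zero]
  -- the projection is a morphism of Hodge structures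
  have hP1 : ∀ w ∈ Submodule.span ℂ {x | ∃ y' ∈ D.mtQ, x = ext ℂ y'}, extF ℂ π w = w := by
    intro w hw
    refine Submodule.span_induction (p := fun w _ => extF ℂ π w = w) ?_ ?_ ?_ ?_ hw
    · rintro _ ⟨y, hy, rfl⟩
      rw [extF_ext, hπ2 y hy]
    · rw [map_zero]
    · intro u v _ _ hu hv
      rw [map_add, hu, hv]
    · intro q u _ hu
      rw [map_smul, hu]
  have hP2 : ∀ w ∈ Submodule.span ℂ {x | ∃ y' ∈ W', x = ext ℂ y'}, extF ℂ π w = 0 := by
    intro w hw
    refine Submodule.span_induction (p := fun w _ => extF ℂ π w = 0) ?_ ?_ ?_ ?_ hw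
    · rintro _ ⟨y, hy, rfl⟩
      rw [extF_ext, hπ3 y hy, ext_zero]
    · rw [map_zero]
    · intro u v _ _ hu hv
      rw [map_add, hu, hv, add_zero]
    · intro q u _ hu
      rw [map_smul, hu, smul_zero]
  have hP3 : ∀ y, D.H * ext ℂ (π y) - ext ℂ (π y) * D.H =
      extF ℂ π (D.H * ext ℂ y - ext ℂ y * D.H) := by
    intro y
    obtain ⟨u, hu, v, hv, rfl⟩ : ∃ u ∈ D.mtQ, ∃ v ∈ W', u + v = y := by
      have : y ∈ D.mtQ ⊔ W' := by rw [hc.sup_eq_top]; trivial
      obtain ⟨u, hu, v, hv, h⟩ := Submodule.mem_sup.mp this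
      exact ⟨u, hu, v, hv, h⟩
    have h1 : D.H * ext ℂ (u + v) - ext ℂ (u + v) * D.H =
        (D.H * ext ℂ u - ext ℂ u * D.H) + (D.H * ext ℂ v - ext ℂ v * D.H) := by
      rw [ext_add, Matrix.mul_add, Matrix.add_mul]
      abel
    rw [h1, map_add, map_add, hπ2 u hu, hπ3 v hv, add_zero, hP1 _ (D.isSubHodge_mtQ u hu),
      hP2 _ (hW' v hv), add_zero]
  set f := π ∘ₗ mask D.wt with hf
  have hf1 : ∀ y, f y ∈ D.mtQ := fun y => hπ1 _
  have hf2 : ∀ x ∈ D.mtQ, f x = x := fun x hx => by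
    rw [hf, LinearMap.comp_apply, mask_of_blk (D.mtQ_blk hx), hπ2 x hx]
  have hfK : ∀ (L : Type) [Field L] [CharZero L] (y : Matrix ι ι L),
      extF L f y = extF L π (mask D.wt y) := by
    intro L _ _ y
    refine lin_ext_eq (F := extF L f) (G := extF L π ∘ₗ mask D.wt) (fun y => ?_) y
    rw [extF_ext]
    change ext L (π (mask D.wt y)) = extF L π (mask D.wt (ext L y))
    rw [← ext_mask, extF_ext]
  have hmem : ∀ (L : Type) [Field L] [CharZero L] (y : Matrix ι ι L), extF L f y ∈ D.mt L := by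
    intro L _ _ y
    refine Submodule.sum_mem _ fun a _ => Submodule.sum_mem _ fun b _ => ?_
    exact Submodule.smul_mem _ _ (D.ext_mem_mt (hf1 _))
  have hWadj : ∀ (L : Type) [Field L] [CharZero L], Adj {wtM L D.wt} (extF L f) := by
    rintro L _ _ _ rfl y
    have hW : Blk D.wt (wtM L D.wt) := by
      rw [blk_iff]
    have h1 : wtM L D.wt * extF L f y = extF L f y * wtM L D.wt := blk_iff.mp (D.mt_blk (hmem L y))
    have h2 : mask D.wt (wtM L D.wt * y - y * wtM L D.wt) = 0 := by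
      rw [map_sub, mask_mul_left hW, mask_mul_right hW, blk_iff.mp (mask_blk _ _), sub_self]
    rw [h1, sub_self, hfK, h2, map_zero]
  have hH : D.IsHodge (2 * D.d) 4 (ofF D.Δ f) := by
    refine ⟨fun i hi => ?_, ?_⟩
    · refine D.ofF_wt (K := ℂ) (hWadj ℂ) i ?_
      rw [← extT_ofF]
      simpa [extT] using hi
    · rw [extT_ofF, ofF_killed_iff (D.Δ_inv ℂ) _ (D.mt_Δ D.H_mem)]
      intro y
      refine lin_ext_eq (F := (LinearMap.mulLeft ℂ D.H - LinearMap.mulRight ℂ D.H) ∘ₗ extF ℂ f)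
        (G := extF ℂ f ∘ₗ (LinearMap.mulLeft ℂ D.H - LinearMap.mulRight ℂ D.H)) (fun y => ?_) y
      simp only [LinearMap.comp_apply, LinearMap.sub_apply, LinearMap.mulLeft_apply,
        LinearMap.mulRight_apply]
      rw [extF_ext, hfK ℂ (D.H * ext ℂ y - ext ℂ y * D.H), map_sub, mask_mul_left D.H_blk,
        mask_mul_right D.H_blk, ← ext_mask, ← hP3]
      rfl
  refine ⟨extF ℚ_[ℓ] f, hmem ℚ_[ℓ], fun x hx => ?_, hWadj ℚ_[ℓ], fun x hx y => ?_⟩
  · obtain ⟨r, b, c, hc, h⟩ := D.mt_decomp hx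
    rw [h, map_sum]
    refine Finset.sum_congr rfl fun m _ => ?_
    rw [map_smul, extF_ext, hf2 _ (hc m)]
  · refine (ofF_killed_iff (D.Δ_inv ℚ_[ℓ]) _ (D.mt_Δ hx)).mp ?_ y
    rw [← extT_ofF]
    exact hx _ _ _ hH

end Cohomology

end

end Pool.Agent.H67FP
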