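import Mathlib

/-!
# Powers of `ℓ`-adic matrices congruent to one modulo `ℓ ^ 2`

`‖(M ^ (ℓ ^ m) - 1) b‖ = ℓ ^ (-m) ‖(M - 1) b‖`, and a vector fixed by some power of `M` is fixed.
-/

set_option autoImplicit false
set_option linter.unusedSectionVars false

open Filter Topology Matrix

namespace Pool.Agent.H67FP

variable {ℓ : ℕ} [Fact ℓ.Prime] {n : Type} [Fintype n] [DecidableEq n]

/-- The matrix is congruent to one modulo `ℓ ^ 2`. -/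
def Near (M : Matrix n n ℚ_[ℓ]) : Prop := ∀ i j, ‖(M - 1) i j‖ ≤ ((ℓ : ℝ)⁻¹) ^ 2

lemma c_pos : (0 : ℝ) < (ℓ : ℝ)⁻¹ := by
  have := (Fact.out : ℓ.Prime).pos
  positivity

lemma c_lt : (ℓ : ℝ)⁻¹ < 1 := by
  have := (Fact.out : ℓ.Prime).one_lt
  exact inv_lt_one_of_one_lt₀ (by exact_mod_cast this)

lemma norm_mulVec_le (A : Matrix n n ℚ_[ℓ]) (C : ℝ) (hC : 0 ≤ C) (hA : ∀ i j, ‖A i j‖ ≤ C)
    (b : n → ℚ_[ℓ]) : ‖A.mulVec b‖ ≤ C * ‖b‖ := by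
  rw [pi_norm_le_iff_of_nonneg (by positivity)]
  intro i
  refine IsUltrametricDist.norm_sum_le_of_forall_le_of_nonneg (by positivity) fun j _ => ?_
  rw [norm_mul]
  exact mul_le_mul (hA i j) (norm_le_pi_norm b j) (norm_nonneg _) hC

lemma norm_mul_le' (A B : Matrix n n ℚ_[ℓ]) (C D : ℝ) (hC : 0 ≤ C) (hD : 0 ≤ D)
    (hA : ∀ i j, ‖A i j‖ ≤ C) (hB : ∀ i j, ‖B i j‖ ≤ D) (i j : n) : ‖(A * B) i j‖ ≤ C * D := by
  rw [Matrix.mul_apply]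
  refine IsUltrametricDist.norm_sum_le_of_forall_le_of_nonneg (by positivity) fun k _ => ?_
  rw [norm_mul]
  exact mul_le_mul (hA i k) (hB k j) (norm_nonneg _) hC

lemma near_one : Near (1 : Matrix n n ℚ_[ℓ]) := by
  intro i j
  simp

lemma Near.mul {M N : Matrix n n ℚ_[ℓ]} (hM : Near M) (hN : Near N) : Near (M * N) := by
  intro i j
  have h1 : M * N - 1 = (M - 1) * (N - 1) + ((M - 1) + (N - 1)) := by noncomm_ring
  have hc := c_pos (ℓ := ℓ)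
  have hc1 := c_lt (ℓ := ℓ)
  have hc2 : ((ℓ : ℝ)⁻¹) ^ 2 * ((ℓ : ℝ)⁻¹) ^ 2 ≤ ((ℓ : ℝ)⁻¹) ^ 2 := by
    have : ((ℓ : ℝ)⁻¹) ^ 2 ≤ 1 := pow_le_one₀ hc.le hc1.le
    nlinarith [sq_nonneg ((ℓ : ℝ)⁻¹)]
  rw [h1, Matrix.add_apply, Matrix.add_apply]
  refine (IsUltrametricDist.norm_add_le_max _ _).trans (max_le ?_ ?_)
  · exact (norm_mul_le' _ _ _ _ (by positivity) (by positivity) hM hN i j).trans hc2
  · exact (IsUltrametricDist.norm_add_le_max _ _).trans (max_le (hM i j) (hN i j))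

lemma Near.pow {M : Matrix n n ℚ_[ℓ]} (hM : Near M) (r : ℕ) : Near (M ^ r) := by
  induction r with
  | zero => simpa using near_one
  | succ r ih => rw [pow_succ]; exact ih.mul hM

lemma norm_pow_sub {M : Matrix n n ℚ_[ℓ]} (hM : Near M) (r : ℕ)
    (hr : (ℓ : ℝ)⁻¹ ≤ ‖(r : ℚ_[ℓ])‖) (b : n → ℚ_[ℓ]) :
    ‖(M ^ r - 1).mulVec b‖ = ‖(r : ℚ_[ℓ])‖ * ‖(M - 1).mulVec b‖ := by
  set v := (M - 1).mulVec b with hv
  have h1 : (M ^ r - 1).mulVec b = (r : ℚ_[ℓ]) • v +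
      ∑ i ∈ Finset.range r, (M ^ i - 1).mulVec v := by
    rw [← geom_sum_mul, ← Matrix.mulVec_mulVec, ← hv, Matrix.sum_mulVec]
    simp_rw [Matrix.sub_mulVec, Matrix.one_mulVec]
    rw [Finset.sum_sub_distrib, Finset.sum_const, Finset.card_range,
      ← Nat.cast_smul_eq_nsmul ℚ_[ℓ]]
    abel
  have hc := c_pos (ℓ := ℓ)
  have hc1 := c_lt (ℓ := ℓ)
  by_cases h0 : v = 0
  · simp [h1, h0]
  have hv0 : 0 < ‖v‖ := norm_pos_iff.mpr h0
  have h2 : ‖∑ i ∈ Finset.range r, (M ^ i - 1).mulVec v‖ ≤ ((ℓ : ℝ)⁻¹) ^ 2 * ‖v‖ :=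
    IsUltrametricDist.norm_sum_le_of_forall_le_of_nonneg (by positivity) fun i _ =>
      norm_mulVec_le _ _ (by positivity) (hM.pow i) v
  have h3 : ‖(r : ℚ_[ℓ]) • v‖ = ‖(r : ℚ_[ℓ])‖ * ‖v‖ := norm_smul _ _
  have h4 : ((ℓ : ℝ)⁻¹) ^ 2 * ‖v‖ < ‖(r : ℚ_[ℓ])‖ * ‖v‖ := by
    refine mul_lt_mul_of_pos_right ?_ hv0
    nlinarith
  rw [h1, IsUltrametricDist.norm_add_eq_max_of_norm_ne_norm, h3, max_eq_left]
  · exact h2.trans h4.le
  · rw [h3]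
    exact (lt_of_le_of_lt h2 h4).ne'

lemma norm_prime_ge {r : ℕ} (hr : r.Prime) : (ℓ : ℝ)⁻¹ ≤ ‖(r : ℚ_[ℓ])‖ := by
  by_cases h : r = ℓ
  · subst h
    rw [Padic.norm_p]
  · have : ‖(r : ℚ_[ℓ])‖ = 1 := by
      rw [Padic.norm_natCast_eq_one_iff]
      exact (Nat.coprime_primes Fact.out hr).mpr (Ne.symm h)
    rw [this]
    exact c_lt.le

lemma norm_pow_pow_sub {M : Matrix n n ℚ_[ℓ]} (hM : Near M) (m : ℕ) (b : n → ℚ_[ℓ]) :
    ‖(M ^ (ℓ ^ m) - 1).mulVec b‖ = ((ℓ : ℝ)⁻¹) ^ m * ‖(M - 1).mulVec b‖ := by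
  induction m with
  | zero => simp
  | succ m ih =>
    rw [pow_succ ℓ m, pow_mul, norm_pow_sub (hM.pow _) ℓ (norm_prime_ge Fact.out), ih,
      Padic.norm_p, pow_succ]
    ring

/-- A vector fixed by a power of `M` is fixed by `M`. -/
lemma fixed_of_pow (r : ℕ) (hr : r ≠ 0) : ∀ {M : Matrix n n ℚ_[ℓ]}, Near M → ∀ b : n → ℚ_[ℓ],
    (M ^ r).mulVec b = b → M.mulVec b = b := by
  induction r using Nat.recOnMul with
  | zero => exact absurd rfl hr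
  | one => intro M _ b h; simpa using h
  | prime p hp =>
    intro M hM b h
    have h1 := norm_pow_sub hM p (norm_prime_ge hp) b
    rw [Matrix.sub_mulVec, Matrix.one_mulVec, h, sub_self, norm_zero] at h1
    have h2 : ‖(p : ℚ_[ℓ])‖ ≠ 0 := by
      have := norm_prime_ge (ℓ := ℓ) hp
      have := c_pos (ℓ := ℓ)
      linarith
    have h3 : ‖(M - 1).mulVec b‖ = 0 := by
      rcases mul_eq_zero.mp h1.symm with h | h
      · exact absurd h h2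
      · exact h
    rw [norm_eq_zero, Matrix.sub_mulVec, Matrix.one_mulVec, sub_eq_zero] at h3
    exact h3
  | mul a b iha ihb =>
    intro M hM v h
    rw [pow_mul] at h
    exact iha (by rintro rfl; simp at hr) hM v (ihb (by rintro rfl; simp at hr) (hM.pow a) v h)

end Pool.Agent.H67FP
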